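import Pool.Agent.TH951.W.UH.H1

/-!
# Combinatorics of collisions
-/

namespace Pool.Agent.TH951.W.UH

open Pool.Agent.TH951.W.UB Pool.Agent.TH951.W.UG Finset

open Classical in
lemma LL_pairs {I : Type*} [Fintype I] (rk : I → ℕ) (o : I → I → ℕ) :
    ∃ T, LL rk o T ≤ ∑ i, ∑ j, if rk i < rk j then o i j else 0 := by
  refine ⟨EE o + 1, ?_⟩
  unfold LL
  have h1 : crd o (EE o + 1) = 0 := by
    unfold crd
    rw [Finset.card_eq_zero, Finset.filter_eq_empty_iff]
    rintro i _ ⟨j, _, hj⟩
    have h2 : o i j ≤ EE o := by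
      unfold EE
      exact (Finset.single_le_sum (f := fun j => o i j) (fun _ _ => Nat.zero_le _)
        (Finset.mem_univ j)).trans (Finset.single_le_sum (f := fun i => ∑ j, o i j)
        (fun _ _ => Nat.zero_le _) (Finset.mem_univ i))
    omega
  rw [h1, add_zero]
  have h2 : ∀ s ∈ Finset.Icc 1 (EE o + 1), cls rk o s ≤
      ∑ i, ∑ j, if rk i < rk j ∧ s ≤ o i j then 1 else 0 := by
    intro s _
    unfold cls
    rw [Finset.card_filter]
    apply Finset.sum_le_sum
    intro i _
    split_ifs with h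
    · obtain ⟨⟨j, hj, hs⟩, hall⟩ := h
      have := Finset.single_le_sum (f := fun j => if rk i < rk j ∧ s ≤ o i j then 1 else 0)
        (fun _ _ => Nat.zero_le _) (Finset.mem_univ j)
      rw [if_pos ⟨hall j hj hs, hs⟩] at this
      exact this
    · exact Nat.zero_le _
  refine (Finset.sum_le_sum h2).trans ?_
  rw [Finset.sum_comm]
  apply Finset.sum_le_sum
  intro i _
  rw [Finset.sum_comm]
  apply Finset.sum_le_sum
  intro j _
  by_cases h : rk i < rk j
  · rw [if_pos h]
    simp only [h, true_and]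
    rw [← Finset.card_filter]
    calc _ ≤ (Finset.Icc 1 (o i j)).card := by
          apply Finset.card_le_card
          intro s hs
          rw [Finset.mem_filter, Finset.mem_Icc] at hs
          rw [Finset.mem_Icc]
          exact ⟨hs.1.1, hs.2⟩
      _ = o i j := by simp
  · simp [h]

open Classical in
lemma crd_le {n : ℕ} (o : Fin n → Fin n → ℕ) (T : ℕ) (hs : ∀ i j, o i j = o j i)
    (hu : ∀ i j l, i ≠ l → T ≤ o i j → T ≤ o j l → T ≤ o i l) :
    crd o T ≤ 2 * (Finset.univ.filter fun i : Fin n => ∃ j, j.1 < i.1 ∧ T ≤ o i j).card := by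
  set Dp := Finset.univ.filter fun i : Fin n => ∃ j, j.1 < i.1 ∧ T ≤ o i j with hDp
  set B2 := (Finset.univ.filter fun i => Nb o T i).filter fun i => i ∉ Dp with hB2
  have h1 : ∀ i, i ∈ B2 → ∃ j, i.1 < j.1 ∧ T ≤ o i j := by
    intro i hi
    rw [hB2, Finset.mem_filter, Finset.mem_filter] at hi
    obtain ⟨⟨_, j, hj, hT⟩, hnd⟩ := hi
    refine ⟨j, ?_, hT⟩
    by_contra hcon
    apply hnd
    rw [hDp, Finset.mem_filter]
    refine ⟨Finset.mem_univ _, j, ?_, hT⟩
    have : j.1 ≠ i.1 := fun h => hj (Fin.ext h)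
    omega
  choose! g hg using h1
  have h2 : B2.card ≤ Dp.card := by
    apply Finset.card_le_card_of_injOn g
    · intro i hi
      have := hg i hi
      rw [Finset.mem_coe, hDp, Finset.mem_filter]
      exact ⟨Finset.mem_univ _, i, this.1, by rw [hs]; exact this.2⟩
    · intro i hi i' hi' hii
      by_contra hne
      have e1 := (hg i hi).2
      have e2 := (hg i' hi').2
      rw [← hii, hs] at e2
      have e3 := hu i (g i) i' hne e1 e2
      have hi2 := (Finset.mem_filter.mp hi).2
      have hi2' := (Finset.mem_filter.mp hi').2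
      rcases lt_or_gt_of_ne (fun h => hne (Fin.ext h) : i.1 ≠ i'.1) with h | h
      · apply hi2'
        rw [hDp, Finset.mem_filter]
        exact ⟨Finset.mem_univ _, i, h, by rw [hs]; exact e3⟩
      · apply hi2
        rw [hDp, Finset.mem_filter]
        exact ⟨Finset.mem_univ _, i', h, e3⟩
  have h3 : (Finset.univ.filter fun i => Nb o T i) ⊆ Dp ∪ B2 := by
    intro i hi
    rw [Finset.mem_union]
    by_cases h : i ∈ Dp
    · exact Or.inl h
    · right
      rw [hB2, Finset.mem_filter]
      exact ⟨hi, h⟩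
  unfold crd
  refine (Finset.card_le_card h3).trans ((Finset.card_union_le _ _).trans ?_)
  omega

open Classical in
lemma bad_terms {n : ℕ} (o : Fin n → Fin n → ℕ) (A : Fin n → ℝ) (R : ℕ) (ρ'' : ℝ)
    (hρ : 0 ≤ ρ'') (hA : ∀ i, 0 ≤ A i ∧ A i ≤ R) (q : ℕ) (χ : Fin n → Fin q) (κ : ℝ)
    (hκ : 0 ≤ κ) (hκ1 : κ ≤ 1)
    (hχ : ∀ i j, i ≠ j → χ i = χ j → κ * R ≤ o i j - 2 * A i + ρ'') (T : ℕ)
    (hT : 8 + 3 * R ≤ T) (w : ℝ) (hw : 0 ≤ w) (hw8 : w ≤ 8) :
    κ * R * n - 3 * R * q ≤
      ∑ i : Fin n, ((((Finset.univ.filter fun j : Fin n => j.1 < i.1).sup (o i) : ℕ) : ℝ) -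
        2 * A i + ρ'') -
      w * ((Finset.univ.filter fun i : Fin n => ∃ j, j.1 < i.1 ∧ T ≤ o i j).card : ℝ) := by
  have hR : (0 : ℝ) ≤ R := Nat.cast_nonneg R
  set np := Finset.univ.filter fun i : Fin n => ¬ ∃ j, j.1 < i.1 ∧ χ j = χ i with hnp
  have hnpc : (np.card : ℝ) ≤ q := by
    have : np.card ≤ (Finset.univ : Finset (Fin q)).card := by
      apply Finset.card_le_card_of_injOn χ
      · intro i _
        simp
      · intro i hi i' hi' hii
        by_contra hne
        have hi2 := (Finset.mem_filter.mp hi).2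
        have hi2' := (Finset.mem_filter.mp hi').2
        rcases lt_or_gt_of_ne (fun h => hne (Fin.ext h) : i.1 ≠ i'.1) with h | h
        · exact hi2' ⟨i, h, hii⟩
        · exact hi2 ⟨i', h, hii.symm⟩
    rw [Finset.card_univ, Fintype.card_fin] at this
    exact_mod_cast this
  have hTr : (8 : ℝ) + 3 * R ≤ T := by exact_mod_cast hT
  have key : ∀ i : Fin n, κ * R - (if i ∈ np then 3 * (R : ℝ) else 0) ≤
      ((((Finset.univ.filter fun j : Fin n => j.1 < i.1).sup (o i) : ℕ) : ℝ) -
        2 * A i + ρ'') - w * (if (∃ j, j.1 < i.1 ∧ T ≤ o i j) then 1 else 0) := by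
    intro i
    obtain ⟨hA0, hA1⟩ := hA i
    have hsup : ∀ j : Fin n, j.1 < i.1 → ((o i j : ℕ) : ℝ) ≤
        (((Finset.univ.filter fun j : Fin n => j.1 < i.1).sup (o i) : ℕ) : ℝ) := by
      intro j hj
      have : o i j ≤ (Finset.univ.filter fun j : Fin n => j.1 < i.1).sup (o i) :=
        Finset.le_sup (f := o i) (Finset.mem_filter.mpr ⟨Finset.mem_univ _, hj⟩)
      exact_mod_cast this
    have hsup0 : (0 : ℝ) ≤
        (((Finset.univ.filter fun j : Fin n => j.1 < i.1).sup (o i) : ℕ) : ℝ) :=
      Nat.cast_nonneg _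
    have hκR : κ * R ≤ R := by nlinarith
    have hite : (0 : ℝ) ≤ if i ∈ np then 3 * (R : ℝ) else 0 := by
      split_ifs
      · linarith
      · exact le_rfl
    by_cases hdeep : ∃ j, j.1 < i.1 ∧ T ≤ o i j
    · rw [if_pos hdeep]
      obtain ⟨j, hj, hTj⟩ := hdeep
      have h1 := hsup j hj
      have h2 : (T : ℝ) ≤ o i j := by exact_mod_cast hTj
      linarith
    · rw [if_neg hdeep]
      by_cases hi : i ∈ np
      · rw [if_pos hi]
        linarith
      · rw [if_neg hi]
        rw [hnp, Finset.mem_filter] at hi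
        push Not at hi
        obtain ⟨j, hj, hχj⟩ := hi (Finset.mem_univ _)
        have hij : i ≠ j := by
          rintro rfl
          exact lt_irrefl _ hj
        have h1 := hχ i j hij hχj.symm
        have h2 := hsup j hj
        linarith
  have hsum := Finset.sum_le_sum fun i (_ : i ∈ (Finset.univ : Finset (Fin n))) => key i
  rw [Finset.sum_sub_distrib, Finset.sum_sub_distrib (s := Finset.univ) (f := fun i : Fin n =>
    ((((Finset.univ.filter fun j : Fin n => j.1 < i.1).sup (o i) : ℕ) : ℝ) -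
        2 * A i + ρ''))] at hsum
  rw [Finset.sum_const, Finset.card_univ, Fintype.card_fin, nsmul_eq_mul,
    Finset.sum_ite_mem, Finset.univ_inter, Finset.sum_const, nsmul_eq_mul,
    ← Finset.mul_sum, Finset.sum_boole] at hsum
  have h3 : (np.card : ℝ) * (3 * R) ≤ 3 * R * q := by nlinarith
  linarith

open Classical in
/-- size of the disc of depth `s` -/
noncomputable def dsz {K : Type*} (P : Finset K) (o : K → K → ℕ) (s : ℕ) (x : K) : ℕ :=
  (P.filter fun y => y = x ∨ s ≤ o x y).card

open Classical in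
/-- medium depths -/
noncomputable def med {K : Type*} (P : Finset K) (o : K → K → ℕ) (T : ℕ) (t t' : ℝ) (x : K) : ℕ :=
  ((Finset.Icc 1 T).filter fun s => t' < dsz P o s x ∧ (dsz P o s x : ℝ) < t).card

open Classical in
/-- light collisions -/
noncomputable def lit {K : Type*} (P : Finset K) (o : K → K → ℕ) (T : ℕ) (t' : ℝ) (x y : K) : ℕ :=
  if x = y then 0 else ((Finset.Icc 1 T).filter fun s => s ≤ o x y ∧ (dsz P o s x : ℝ) ≤ t').card

open Classical in
lemma cls_bound {K : Type*} (P : Finset K) (o : K → K → ℕ) (hsym : ∀ x y, o x y = o y x)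
    (hult : ∀ x ∈ P, ∀ y ∈ P, ∀ z ∈ P, ∀ s, x ≠ y → y ≠ z → x ≠ z → s ≤ o x y → s ≤ o y z →
      s ≤ o x z)
    {n : ℕ} (z : Fin n → K) (hzP : ∀ i, z i ∈ P) (hz : Function.Injective z) (s : ℕ) (hs : 1 ≤ s)
    (t t' : ℝ) (ht : 0 < t) :
    (cls (fun i : Fin n => i.1) (fun i j => if i = j then 0 else o (z i) (z j)) s : ℝ) ≤
      P.card / t + ∑ i : Fin n, (if t' < dsz P o s (z i) ∧ (dsz P o s (z i) : ℝ) < t then 1 else 0)
      + ∑ i : Fin n, ∑ j : Fin n, (if i.1 < j.1 then (if s ≤ o (z i) (z j) ∧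
        (dsz P o s (z i) : ℝ) ≤ t' then 1 else 0) else 0) := by
  set o' : Fin n → Fin n → ℕ := fun i j => if i = j then 0 else o (z i) (z j) with ho'
  set Rp := Finset.univ.filter fun i => Rep (fun i : Fin n => i.1) o' s i with hRp
  set Hv := Rp.filter fun i => t ≤ (dsz P o s (z i) : ℝ) with hHv
  have hHvc : (Hv.card : ℝ) ≤ P.card / t := by
    rw [le_div_iff₀ ht]
    have h1 : (Hv.card : ℝ) * t ≤ ∑ i ∈ Hv, (dsz P o s (z i) : ℝ) := by
      rw [← nsmul_eq_mul]
      apply Finset.card_nsmul_le_sum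
      intro i hi
      exact (Finset.mem_filter.mp hi).2
    refine h1.trans ?_
    have h2 : ∑ i ∈ Hv, dsz P o s (z i) ≤ P.card := by
      unfold dsz
      rw [← Finset.card_biUnion]
      · apply Finset.card_le_card
        intro y hy
        rw [Finset.mem_biUnion] at hy
        obtain ⟨i, _, hy⟩ := hy
        exact (Finset.mem_filter.mp hy).1
      · intro i hi j hj hij
        rw [Function.onFun, Finset.disjoint_left]
        intro y hy1 hy2
        rw [Finset.mem_filter] at hy1 hy2
        have hRi := (Finset.mem_filter.mp (Finset.mem_filter.mp hi).1).2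
        have hRj := (Finset.mem_filter.mp (Finset.mem_filter.mp hj).1).2
        have hzij : z i ≠ z j := fun h => hij (hz h)
        have h3 : s ≤ o (z i) (z j) := by
          rcases hy1.2 with h1 | h1
          · rcases hy2.2 with h2 | h2
            · exact absurd (h1.symm.trans h2) hzij
            · rw [h1, hsym] at h2
              exact h2
          · rcases hy2.2 with h2 | h2
            · rw [h2] at h1
              exact h1
            · by_cases e1 : y = z i
              · rw [e1, hsym] at h2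
                exact h2
              · by_cases e2 : y = z j
                · rw [e2] at h1
                  exact h1
                · rw [hsym] at h2
                  exact hult _ (hzP i) _ hy1.1 _ (hzP j) s (Ne.symm e1) e2 hzij h1 h2
        have h4 : s ≤ o' i j := by
          simp only [ho']
          rw [if_neg hij]
          exact h3
        have h5 : s ≤ o' j i := by
          simp only [ho']
          rw [if_neg (Ne.symm hij), hsym]
          exact h3
        have h6 := hRi.2 j (Ne.symm hij) h4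
        have h7 := hRj.2 i hij h5
        simp only at h6 h7
        omega
    exact_mod_cast h2
  have hsplit : (Rp.card : ℝ) ≤ Hv.card + ∑ i ∈ Rp, ((if t' < dsz P o s (z i) ∧
      (dsz P o s (z i) : ℝ) < t then 1 else 0) + ∑ j : Fin n, (if i.1 < j.1 then
        (if s ≤ o (z i) (z j) ∧ (dsz P o s (z i) : ℝ) ≤ t' then (1 : ℝ) else 0) else 0)) := by
    have h1 : (Rp.card : ℝ) = ∑ i ∈ Rp, (1 : ℝ) := by simp
    have h2 : (Hv.card : ℝ) = ∑ i ∈ Rp, if t ≤ (dsz P o s (z i) : ℝ) then (1 : ℝ) else 0 := by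
      rw [hHv, Finset.sum_boole]
    rw [h1, h2, ← Finset.sum_add_distrib]
    apply Finset.sum_le_sum
    intro i hi
    have hnn : (0 : ℝ) ≤ ∑ j : Fin n, (if i.1 < j.1 then
        (if s ≤ o (z i) (z j) ∧ (dsz P o s (z i) : ℝ) ≤ t' then (1 : ℝ) else 0) else 0) := by
      apply Finset.sum_nonneg
      intro j _
      split_ifs <;> norm_num
    have hnn2 : (0 : ℝ) ≤ (if t' < (dsz P o s (z i) : ℝ) ∧
      (dsz P o s (z i) : ℝ) < t then 1 else 0) := by split_ifs <;> norm_num
    by_cases hc : t ≤ (dsz P o s (z i) : ℝ)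
    · rw [if_pos hc]
      linarith
    · rw [if_neg hc]
      by_cases hc2 : t' < (dsz P o s (z i) : ℝ)
      · rw [if_pos ⟨hc2, not_le.mp hc⟩]
        linarith
      · obtain ⟨⟨j, hj, hsj⟩, hall⟩ := (Finset.mem_filter.mp hi).2
        have hlt := hall j hj hsj
        simp only at hlt
        have hsj' : s ≤ o (z i) (z j) := by
          simp only [ho'] at hsj
          rw [if_neg (Ne.symm hj)] at hsj
          exact hsj
        have := Finset.single_le_sum (f := fun j : Fin n => (if i.1 < j.1 then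
          (if s ≤ o (z i) (z j) ∧ (dsz P o s (z i) : ℝ) ≤ t' then (1 : ℝ) else 0) else 0))
          (fun j _ => by split_ifs <;> norm_num) (Finset.mem_univ j)
        rw [if_pos hlt, if_pos ⟨hsj', not_lt.mp hc2⟩] at this
        linarith
  have hmono : ∑ i ∈ Rp, ((if t' < dsz P o s (z i) ∧
      (dsz P o s (z i) : ℝ) < t then 1 else 0) + ∑ j : Fin n, (if i.1 < j.1 then
        (if s ≤ o (z i) (z j) ∧ (dsz P o s (z i) : ℝ) ≤ t' then (1 : ℝ) else 0) else 0)) ≤
      ∑ i : Fin n, ((if t' < dsz P o s (z i) ∧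
      (dsz P o s (z i) : ℝ) < t then 1 else 0) + ∑ j : Fin n, (if i.1 < j.1 then
        (if s ≤ o (z i) (z j) ∧ (dsz P o s (z i) : ℝ) ≤ t' then (1 : ℝ) else 0) else 0)) := by
    apply Finset.sum_le_sum_of_subset_of_nonneg (Finset.subset_univ _)
    intro i _ _
    apply add_nonneg
    · split_ifs <;> norm_num
    · apply Finset.sum_nonneg
      intro j _
      split_ifs <;> norm_num
  have : (cls (fun i : Fin n => i.1) o' s : ℝ) = Rp.card := rfl
  rw [this]
  simp only [Finset.sum_add_distrib] at hmono hsplit ⊢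
  linarith

open Classical in
lemma LL_small {K : Type*} (P : Finset K) (o : K → K → ℕ) (hsym : ∀ x y, o x y = o y x)
    (hult : ∀ x ∈ P, ∀ y ∈ P, ∀ z ∈ P, ∀ s, x ≠ y → y ≠ z → x ≠ z → s ≤ o x y → s ≤ o y z →
      s ≤ o x z)
    {n : ℕ} (z : Fin n → K) (hzP : ∀ i, z i ∈ P) (hz : Function.Injective z) (T : ℕ) (hT : 1 ≤ T)
    (t t' : ℝ) (ht : 0 < t) :
    (LL (fun i : Fin n => i.1) (fun i j => if i = j then 0 else o (z i) (z j)) T : ℝ) ≤
      T * (P.card / t) + ∑ i, (med P o T t t' (z i) : ℝ) +
      (∑ i : Fin n, ∑ j : Fin n, if i.1 < j.1 then (lit P o T t' (z i) (z j) : ℝ) else 0) +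
      2 * ((Finset.univ.filter fun i : Fin n => ∃ j, j.1 < i.1 ∧
        T ≤ if i = j then 0 else o (z i) (z j)).card : ℝ) := by
  have h1 := crd_le (n := n) (fun i j => if i = j then 0 else o (z i) (z j)) T (by
    intro i j
    by_cases h : i = j
    · rw [h]
    · rw [if_neg h, if_neg (Ne.symm h), hsym]) (by
    intro i j l hil hij hjl
    rw [if_neg hil]
    have e1 : i ≠ j := by
      intro h
      rw [if_pos h] at hij
      omega
    have e2 : j ≠ l := by
      intro h
      rw [if_pos h] at hjl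
      omega
    rw [if_neg e1] at hij
    rw [if_neg e2] at hjl
    exact hult _ (hzP i) _ (hzP j) _ (hzP l) T (fun h => e1 (hz h)) (fun h => e2 (hz h))
      (fun h => hil (hz h)) hij hjl)
  have h1' : (crd (fun i j : Fin n => if i = j then 0 else o (z i) (z j)) T : ℝ) ≤
      2 * ((Finset.univ.filter fun i : Fin n => ∃ j, j.1 < i.1 ∧
        T ≤ if i = j then 0 else o (z i) (z j)).card : ℝ) := by exact_mod_cast h1
  unfold LL
  push_cast
  have h2 : ∑ s ∈ Finset.Icc 1 T, (cls (fun i : Fin n => i.1)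
      (fun i j => if i = j then 0 else o (z i) (z j)) s : ℝ) ≤
      ∑ s ∈ Finset.Icc 1 T, (P.card / t +
        ∑ i : Fin n, (if t' < dsz P o s (z i) ∧ (dsz P o s (z i) : ℝ) < t then 1 else 0)
      + ∑ i : Fin n, ∑ j : Fin n, (if i.1 < j.1 then (if s ≤ o (z i) (z j) ∧
        (dsz P o s (z i) : ℝ) ≤ t' then 1 else 0) else 0)) := by
    apply Finset.sum_le_sum
    intro s hs
    exact cls_bound P o hsym hult z hzP hz s (Finset.mem_Icc.mp hs).1 t t' ht
  rw [Finset.sum_add_distrib, Finset.sum_add_distrib, Finset.sum_const, Nat.card_Icc,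
    nsmul_eq_mul, Nat.add_sub_cancel] at h2
  have h3 : ∑ s ∈ Finset.Icc 1 T, ∑ i : Fin n, (if t' < dsz P o s (z i) ∧
      (dsz P o s (z i) : ℝ) < t then (1 : ℝ) else 0) = ∑ i, (med P o T t t' (z i) : ℝ) := by
    rw [Finset.sum_comm]
    apply Finset.sum_congr rfl
    intro i _
    unfold med
    rw [Finset.sum_boole]
  have h4 : ∑ s ∈ Finset.Icc 1 T, ∑ i : Fin n, ∑ j : Fin n, (if i.1 < j.1 then
      (if s ≤ o (z i) (z j) ∧ (dsz P o s (z i) : ℝ) ≤ t' then (1 : ℝ) else 0) else 0) =
      ∑ i : Fin n, ∑ j : Fin n, if i.1 < j.1 then (lit P o T t' (z i) (z j) : ℝ) else 0 := by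
    rw [Finset.sum_comm]
    apply Finset.sum_congr rfl
    intro i _
    rw [Finset.sum_comm]
    apply Finset.sum_congr rfl
    intro j _
    by_cases h : i.1 < j.1
    · simp only [h, if_true]
      unfold lit
      rw [if_neg (fun h' => by rw [hz h'] at h; exact lt_irrefl _ h), Finset.sum_boole]
    · simp [h]
  rw [h3, h4] at h2
  linarith

open Classical in
/-- average of the light collisions -/
lemma lit_sum {K : Type*} (P : Finset K) (o : K → K → ℕ) (T : ℕ) (t' : ℝ) (ht' : 0 ≤ t') :
    ∑ x ∈ P, ∑ y ∈ P, (lit P o T t' x y : ℝ) ≤ T * P.card * t' := by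
  have h1 : ∀ x ∈ P, ∑ y ∈ P, (lit P o T t' x y : ℝ) ≤ T * t' := by
    intro x _
    calc ∑ y ∈ P, (lit P o T t' x y : ℝ)
        ≤ ∑ y ∈ P, ∑ s ∈ Finset.Icc 1 T,
          (if (s ≤ o x y ∧ (dsz P o s x : ℝ) ≤ t') then (1 : ℝ) else 0) := by
          apply Finset.sum_le_sum
          intro y _
          unfold lit
          split_ifs with h
          · push_cast
            apply Finset.sum_nonneg
            intro s _
            split_ifs <;> norm_num
          · rw [Finset.sum_boole]
      _ = ∑ s ∈ Finset.Icc 1 T, ∑ y ∈ P,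
          (if (s ≤ o x y ∧ (dsz P o s x : ℝ) ≤ t') then (1 : ℝ) else 0) := Finset.sum_comm
      _ ≤ ∑ s ∈ Finset.Icc 1 T, t' := by
          apply Finset.sum_le_sum
          intro s _
          rw [Finset.sum_boole]
          by_cases h : (dsz P o s x : ℝ) ≤ t'
          · refine le_trans ?_ h
            unfold dsz
            have : (P.filter fun y => s ≤ o x y ∧ (dsz P o s x : ℝ) ≤ t').card ≤
                (P.filter fun y => y = x ∨ s ≤ o x y).card := by
              apply Finset.card_le_card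
              intro y hy
              rw [Finset.mem_filter] at hy ⊢
              exact ⟨hy.1, Or.inr hy.2.1⟩
            exact_mod_cast this
          · have : (P.filter fun y => s ≤ o x y ∧ (dsz P o s x : ℝ) ≤ t') = ∅ := by
              rw [Finset.filter_eq_empty_iff]
              rintro y _ ⟨_, h'⟩
              exact h h'
            rw [this, Finset.card_empty]
            simpa using ht'
      _ = T * t' := by
          rw [Finset.sum_const, Nat.card_Icc, nsmul_eq_mul, Nat.add_sub_cancel]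
  refine (Finset.sum_le_sum h1).trans ?_
  rw [Finset.sum_const, nsmul_eq_mul]
  nlinarith

open Classical in
/-- the medium depths over all scales -/
lemma med_sum {K : Type*} (P : Finset K) (o : K → K → ℕ) (T : ℕ) (t : ℕ → ℝ)
    (hant : Antitone t) (S : ℕ) (x : K) :
    ∑ i ∈ Finset.range S, (med P o T (t i) (t (i + 1)) x : ℝ) ≤ T := by
  have h1 : ∀ i, (med P o T (t i) (t (i + 1)) x : ℝ) = ∑ s ∈ Finset.Icc 1 T,
      (if t (i + 1) < dsz P o s x ∧ (dsz P o s x : ℝ) < t i then (1 : ℝ) else 0) := by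
    intro i
    unfold med
    rw [Finset.sum_boole]
  simp_rw [h1]
  rw [Finset.sum_comm]
  calc _ ≤ ∑ s ∈ Finset.Icc 1 T, (1 : ℝ) := by
        apply Finset.sum_le_sum
        intro s _
        rw [Finset.sum_boole]
        have : ((Finset.range S).filter fun i => t (i + 1) < dsz P o s x ∧
            (dsz P o s x : ℝ) < t i).card ≤ 1 := by
          rw [Finset.card_le_one]
          intro i hi j hj
          rw [Finset.mem_filter] at hi hj
          by_contra hne
          rcases lt_or_gt_of_ne hne with h | h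
          · have := hant (show i + 1 ≤ j by omega)
            linarith [hi.2.1, hj.2.2]
          · have := hant (show j + 1 ≤ i by omega)
            linarith [hj.2.1, hi.2.2]
        exact_mod_cast this
    _ = T := by rw [Finset.sum_const, Nat.card_Icc]; simp

end Pool.Agent.TH951.W.UH
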