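import Pool.Agent.TH951.W.UH.H4
import Pool.Agent.TH951.W.UH.H5

/-!
# Bounds at good and bad places
-/

namespace Pool.Agent.TH951.W.UH

open Pool.Agent.TH951.W.UB Pool.Agent.TH951.W.UG Finset Polynomial

universe u

/-- local data at a place -/
structure LD {k : Type*} {K : Type u} [Field k] [Field K] [Algebra k K] [DecidableEq K]
    (Q : PlaceData k K) (v : Q.Pl) (d : ℕ) (P : Finset K) (a : K → ℝ) (ρ : ℝ) where
  μ : K
  lam : K
  ν : K
  τ : ℝ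
  R : ℕ
  hlam : lam ≠ 0
  hP : ∀ z ∈ P, z ≠ μ ∧ Q.G v 0 (lc μ lam ν z)
  hR : (R : ℝ) / (d * ((d : ℝ) - 1)) = ρ + Q.ord v lam + 2 * τ
  hA : ∀ z ∈ P, 0 ≤ Az Q v a μ lam τ z ∧ Az Q v a μ lam τ z ≤ R / ((d : ℝ) - 1)
  hE : ∀ n : ℕ, (d : ℝ) ^ (2 * n) ≤ P.card → -(4 * (P.card : ℝ) ^ 2 * R / (d : ℝ) ^ n) ≤
        ∑ z ∈ P, ∑ z' ∈ P, if z = z' then 0 else GG Q v a ρ z z'
  hC : 1 ≤ R → ∃ χ : K → Fin (q₀ d), ∀ z ∈ P, ∀ z' ∈ P, z ≠ z' → χ z = χ z' →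
        (R : ℝ) / (8 * d * (d + 1)) ≤ Q.ord v (lc μ lam ν z - lc μ lam ν z') -
          2 * Az Q v a μ lam τ z + (R : ℝ) / (d * ((d : ℝ) - 1))

variable {k : Type*} {K : Type u} [Field k] [Field K] [Algebra k K] [DecidableEq K]

/-- The max principle on a finite stable set. -/
lemma stable_zero (d : ℕ) (hd : 2 ≤ d) (P : Finset K) (f : K → K) (hf : ∀ z ∈ P, f z ∈ P)
    (g : K → ℝ) (hg : ∀ z ∈ P, (d : ℝ) * g z = g (f z)) : ∀ z ∈ P, g z = 0 := by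
  intro z hz
  obtain ⟨w, hw, hmax⟩ := Finset.exists_max_image P (fun z => |g z|) ⟨z, hz⟩
  have h1 := hg w hw
  have h2 := hmax _ (hf w hw)
  rw [← h1, abs_mul, Nat.abs_cast] at h2
  have hd' : (2 : ℝ) ≤ d := by exact_mod_cast hd
  have h3 : |g w| = 0 := by
    have := abs_nonneg (g w)
    nlinarith
  have h4 := hmax z hz
  rw [h3] at h4
  exact abs_nonpos_iff.mp h4

variable {Q : PlaceData k K} {v : Q.Pl} {d : ℕ} {P : Finset K} {a : K → ℝ} {ρ : ℝ}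

/-- the collision kernel on `K` -/
noncomputable def LD.o (L : LD Q v d P a ρ) (x y : K) : ℕ :=
  (Q.ord v (lc L.μ L.lam L.ν x - lc L.μ L.lam L.ν y)).toNat

lemma LD.o_symm (L : LD Q v d P a ρ) (x y : K) : L.o x y = L.o y x := by
  unfold LD.o
  by_cases h : lc L.μ L.lam L.ν x - lc L.μ L.lam L.ν y = 0
  · have h' : lc L.μ L.lam L.ν y - lc L.μ L.lam L.ν x = 0 := by
      rw [sub_eq_zero] at h ⊢
      exact h.symm
    rw [h, h']
  · have h' : lc L.μ L.lam L.ν y - lc L.μ L.lam L.ν x =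
        -(lc L.μ L.lam L.ν x - lc L.μ L.lam L.ν y) := by ring
    rw [h', PlaceData.ord_neg h]

lemma LD.o_ord (L : LD Q v d P a ρ) {x y : K} (hx : x ∈ P) (hy : y ∈ P) (hxy : x ≠ y) :
    (L.o x y : ℤ) = Q.ord v (lc L.μ L.lam L.ν x - lc L.μ L.lam L.ν y) := by
  unfold LD.o
  apply Int.toNat_of_nonneg
  exact PlaceData.G_sub (L.hP x hx).2 (L.hP y hy).2
    (sub_ne_zero.mpr (lc_inj L.hlam (L.hP x hx).1 (L.hP y hy).1 hxy))

lemma LD.o_ult (L : LD Q v d P a ρ) : ∀ x ∈ P, ∀ y ∈ P, ∀ z ∈ P, ∀ s, x ≠ y → y ≠ z → x ≠ z →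
    s ≤ L.o x y → s ≤ L.o y z → s ≤ L.o x z := by
  intro x hx y hy z hz s hxy hyz hxz h1 h2
  have e1 := L.o_ord hx hy hxy
  have e2 := L.o_ord hy hz hyz
  have e3 := L.o_ord hx hz hxz
  have g : Q.G v (s : ℤ) ((lc L.μ L.lam L.ν x - lc L.μ L.lam L.ν y) +
      (lc L.μ L.lam L.ν y - lc L.μ L.lam L.ν z)) := by
    apply PlaceData.G_add
    · intro _
      rw [← e1]
      exact_mod_cast h1
    · intro _
      rw [← e2]
      exact_mod_cast h2
  have h3 : (lc L.μ L.lam L.ν x - lc L.μ L.lam L.ν y) +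
      (lc L.μ L.lam L.ν y - lc L.μ L.lam L.ν z) = lc L.μ L.lam L.ν x - lc L.μ L.lam L.ν z := by
    ring
  rw [h3] at g
  have h4 := g (sub_ne_zero.mpr (lc_inj L.hlam (L.hP x hx).1 (L.hP z hz).1 hxz))
  rw [← e3] at h4
  exact_mod_cast h4

lemma LD.GG_eq (L : LD Q v d P a ρ) {x y : K} (hx : x ∈ P) (hy : y ∈ P) (hxy : x ≠ y) :
    GG Q v a ρ x y = L.o x y - Az Q v a L.μ L.lam L.τ x - Az Q v a L.μ L.lam L.τ y +
      (L.R : ℝ) / (d * ((d : ℝ) - 1)) := by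
  have e1 := L.o_ord hx hy hxy
  rw [ord_lc_sub L.hlam (L.hP x hx).1 (L.hP y hy).1 hxy] at e1
  have e2 : (L.o x y : ℝ) = ((Q.ord v (x - y) - Q.ord v L.lam + Q.ord v (L.lam / (x - L.μ)) +
    Q.ord v (L.lam / (y - L.μ)) : ℤ) : ℝ) := by exact_mod_cast e1
  rw [e2, L.hR]
  unfold GG Az
  push_cast
  ring

lemma LD.GG_good (L : LD Q v d P a ρ) (hR : L.R = 0) {x y : K} (hx : x ∈ P) (hy : y ∈ P)
    (hxy : x ≠ y) : GG Q v a ρ x y = L.o x y := by
  rw [L.GG_eq hx hy hxy]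
  have h1 := L.hA x hx
  have h2 := L.hA y hy
  rw [hR] at h1 h2 ⊢
  simp only [Nat.cast_zero, zero_div] at h1 h2 ⊢
  linarith [h1.1, h1.2, h2.1, h2.2]

/-- the slack at a place -/
noncomputable def Sl (Q : PlaceData k K) (v : Q.Pl) (a : K → ℝ) (ρ : ℝ) (m : ℕ)
    (z : Fin (2 * m) → K) (b : Fin (2 * m)) : ℝ :=
  4 * (Q.ord v (cdet Q m z b) : ℝ) - 4 * m * ∑ i, a (z i) + 4 * (m : ℝ) ^ 2 * ρ -
    ∑ i, ∑ j, (if i = j then 0 else GG Q v a ρ (z i) (z j))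

lemma LD.oo_eq (L : LD Q v d P a ρ) {n : ℕ} (z : Fin n → K) :
    oo Q v (lc L.μ L.lam L.ν) z = fun i j => if i = j then 0 else L.o (z i) (z j) := rfl

theorem LD.slack_good (L : LD Q v d P a ρ) (hR : L.R = 0) (m : ℕ) (hm : 0 < m)
    (z : Fin (2 * m) → K) (hzP : ∀ i, z i ∈ P) (hz : Function.Injective z) (b : Fin (2 * m))
    (hdet : cdet Q m z b ≠ 0) :
    -(4 * ∑ i : Fin (2 * m), ∑ j : Fin (2 * m), if i.1 < j.1 then GG Q v a ρ (z i) (z j) else 0) -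
      4 * Q.loss v * ((m : ℝ) - 1) ≤ Sl Q v a ρ m z b := by
  obtain ⟨T, hT⟩ := LL_pairs (fun i : Fin (2 * m) => i.1) (oo Q v (lc L.μ L.lam L.ν) z)
  have hpl := place m hm z hz b L.μ L.lam L.ν L.hlam (fun i => L.hP _ (hzP i)) a L.τ ρ hdet T
  have h1 : (∑ i : Fin (2 * m), ∑ j : Fin (2 * m), (if i.1 < j.1 then
      oo Q v (lc L.μ L.lam L.ν) z i j else 0 : ℕ) : ℕ) = ((∑ i : Fin (2 * m), ∑ j : Fin (2 * m),
      if i.1 < j.1 then GG Q v a ρ (z i) (z j) else 0 : ℝ)) := by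
    push_cast
    apply Finset.sum_congr rfl
    intro i _
    apply Finset.sum_congr rfl
    intro j _
    split_ifs with h
    · have hij : i ≠ j := by
        rintro rfl
        exact lt_irrefl _ h
      rw [L.oo_eq]
      simp only [if_neg hij]
      rw [L.GG_good hR (hzP i) (hzP j) fun h => hij (hz h)]
    · rfl
  have h2 : (LL (fun i : Fin (2 * m) => i.1) (oo Q v (lc L.μ L.lam L.ν) z) T : ℝ) ≤
      ∑ i : Fin (2 * m), ∑ j : Fin (2 * m), if i.1 < j.1 then GG Q v a ρ (z i) (z j) else 0 := by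
    rw [← h1]
    exact_mod_cast hT
  have h3 : 0 ≤ ∑ i : Fin (2 * m), ((((Finset.univ.filter fun j : Fin (2 * m) => j.1 < i.1).sup
        (oo Q v (lc L.μ L.lam L.ν) z i) : ℕ) : ℝ) - 2 * Az Q v a L.μ L.lam L.τ (z i) +
        (ρ + Q.ord v L.lam + 2 * L.τ)) := by
    apply Finset.sum_nonneg
    intro i _
    have h4 := L.hA _ (hzP i)
    rw [← L.hR]
    rw [hR] at h4 ⊢
    simp only [Nat.cast_zero, zero_div] at h4 ⊢
    have h5 : (0 : ℝ) ≤ (((Finset.univ.filter fun j : Fin (2 * m) => j.1 < i.1).sup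
        (oo Q v (lc L.μ L.lam L.ν) z i) : ℕ) : ℝ) := Nat.cast_nonneg _
    linarith [h4.1, h4.2]
  unfold Sl
  linarith

/-- the terms at a bad place -/
lemma LD.terms (L : LD Q v d P a ρ) (hd : 2 ≤ d) (hR : 1 ≤ L.R) {n : ℕ}
    (z : Fin n → K) (hzP : ∀ i, z i ∈ P) (hz : Function.Injective z) (T : ℕ)
    (hT : 8 + 3 * L.R ≤ T) (w : ℝ) (hw : 0 ≤ w) (hw8 : w ≤ 8) :
    1 / (8 * (d : ℝ) * (d + 1)) * L.R * n - 3 * L.R * q₀ d ≤
      ∑ i : Fin n, ((((Finset.univ.filter fun j : Fin n => j.1 < i.1).sup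
        (oo Q v (lc L.μ L.lam L.ν) z i) : ℕ) : ℝ) - 2 * Az Q v a L.μ L.lam L.τ (z i) +
        (ρ + Q.ord v L.lam + 2 * L.τ)) -
      w * (by classical exact
        ((Finset.univ.filter fun i : Fin n => ∃ j, j.1 < i.1 ∧
          T ≤ if i = j then 0 else L.o (z i) (z j)).card : ℝ)) := by
  classical
  have hdR : (2 : ℝ) ≤ d := by exact_mod_cast hd
  obtain ⟨χ, hχ⟩ := L.hC hR
  have hRR : (1 : ℝ) ≤ L.R := by exact_mod_cast hR
  have h := bad_terms (oo Q v (lc L.μ L.lam L.ν) z) (fun i => Az Q v a L.μ L.lam L.τ (z i)) L.R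
    (ρ + Q.ord v L.lam + 2 * L.τ) (by
      rw [← L.hR]
      apply div_nonneg (by linarith)
      apply mul_nonneg <;> linarith) (by
      intro i
      obtain ⟨h1, h2⟩ := L.hA _ (hzP i)
      refine ⟨h1, h2.trans ?_⟩
      rw [div_le_iff₀ (by linarith)]
      nlinarith) (q₀ d) (fun i => χ (z i)) (1 / (8 * (d : ℝ) * (d + 1))) (by positivity) (by
      rw [div_le_one (by positivity)]
      nlinarith) (by
      intro i j hij hc
      have h1 := hχ _ (hzP i) _ (hzP j) (fun h => hij (hz h)) hc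
      have h2 := oo_ord L.hlam z hz (fun i => L.hP _ (hzP i)) i j hij
      have h3 : (oo Q v (lc L.μ L.lam L.ν) z i j : ℝ) =
        Q.ord v (lc L.μ L.lam L.ν (z i) - lc L.μ L.lam L.ν (z j)) := by exact_mod_cast h2
      rw [h3, ← L.hR]
      have h4 : 1 / (8 * (d : ℝ) * (d + 1)) * L.R = L.R / (8 * d * (d + 1)) := by ring
      rw [h4]
      exact h1) T hT w hw hw8
  rw [L.oo_eq] at h ⊢
  convert h using 2

theorem LD.slack_big (L : LD Q v d P a ρ) (hd : 2 ≤ d) (hR : 1 ≤ L.R) (m : ℕ) (hm : 0 < m)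
    (z : Fin (2 * m) → K) (hzP : ∀ i, z i ∈ P) (hz : Function.Injective z) (b : Fin (2 * m))
    (hdet : cdet Q m z b ≠ 0) :
    1 / (8 * (d : ℝ) * (d + 1)) * L.R * (2 * m) - 3 * L.R * q₀ d - 8 * m -
      4 * Q.loss v * ((m : ℝ) - 1) ≤ Sl Q v a ρ m z b := by
  classical
  have hpl := place m hm z hz b L.μ L.lam L.ν L.hlam (fun i => L.hP _ (hzP i)) a L.τ ρ hdet 0
  have h1 := L.terms hd hR z hzP hz (8 + 3 * L.R) le_rfl 0 le_rfl (by norm_num)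
  rw [zero_mul, sub_zero] at h1
  push_cast at h1
  have h2 : (LL (fun i : Fin (2 * m) => i.1) (oo Q v (lc L.μ L.lam L.ν) z) 0 : ℝ) ≤ 2 * m := by
    have : LL (fun i : Fin (2 * m) => i.1) (oo Q v (lc L.μ L.lam L.ν) z) 0 ≤ 2 * m := by
      unfold LL
      rw [Finset.Icc_eq_empty (by norm_num), Finset.sum_empty, zero_add]
      unfold crd
      refine (Finset.card_le_univ _).trans ?_
      rw [Fintype.card_fin]
    exact_mod_cast this
  unfold Sl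
  linarith

theorem LD.slack_small (L : LD Q v d P a ρ) (hd : 2 ≤ d) (hR : 1 ≤ L.R) (m : ℕ) (hm : 0 < m)
    (z : Fin (2 * m) → K) (hzP : ∀ i, z i ∈ P) (hz : Function.Injective z) (b : Fin (2 * m))
    (hdet : cdet Q m z b ≠ 0) (T : ℕ) (hT : 8 + 3 * L.R ≤ T) (t t' : ℝ) (ht : 0 < t) :
    1 / (8 * (d : ℝ) * (d + 1)) * L.R * (2 * m) - 3 * L.R * q₀ d -
      4 * (T * (P.card / t) + ∑ i, (med P L.o T t t' (z i) : ℝ) +
      (∑ i : Fin (2 * m), ∑ j : Fin (2 * m),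
        if i.1 < j.1 then (lit P L.o T t' (z i) (z j) : ℝ) else 0)) -
      4 * Q.loss v * ((m : ℝ) - 1) ≤ Sl Q v a ρ m z b := by
  classical
  have hpl := place m hm z hz b L.μ L.lam L.ν L.hlam (fun i => L.hP _ (hzP i)) a L.τ ρ hdet T
  have h1 := L.terms hd hR z hzP hz T hT 8 (by norm_num) le_rfl
  push_cast at h1
  have h2 := LL_small P L.o L.o_symm L.o_ult z hzP hz T (by omega) t t' ht
  rw [← L.oo_eq] at h2
  have h3 : (((Finset.univ.filter fun i : Fin (2 * m) => ∃ j, j.1 < i.1 ∧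
        T ≤ if i = j then 0 else L.o (z i) (z j)).card : ℕ) : ℝ) = (by classical exact
        ((Finset.univ.filter fun i : Fin (2 * m) => ∃ j, j.1 < i.1 ∧
          T ≤ if i = j then 0 else L.o (z i) (z j)).card : ℝ)) := by
    congr
  unfold Sl
  set W : ℝ := (((Finset.univ.filter fun i : Fin (2 * m) => ∃ j, j.1 < i.1 ∧
        T ≤ if i = j then 0 else L.o (z i) (z j)).card : ℕ) : ℝ) with hW
  have h1' : 1 / (8 * (d : ℝ) * (d + 1)) * L.R * (2 * m) - 3 * L.R * q₀ d ≤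
      ∑ i : Fin (2 * m), ((((Finset.univ.filter fun j : Fin (2 * m) => j.1 < i.1).sup
        (oo Q v (lc L.μ L.lam L.ν) z i) : ℕ) : ℝ) - 2 * Az Q v a L.μ L.lam L.τ (z i) +
        (ρ + Q.ord v L.lam + 2 * L.τ)) - 8 * W := by
    rw [hW]
    convert h1 using 2
  have h2' : (LL (fun i : Fin (2 * m) => i.1) (oo Q v (lc L.μ L.lam L.ν) z) T : ℝ) ≤
      T * (P.card / t) + ∑ i, (med P L.o T t t' (z i) : ℝ) +
      (∑ i : Fin (2 * m), ∑ j : Fin (2 * m),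
        if i.1 < j.1 then (lit P L.o T t' (z i) (z j) : ℝ) else 0) + 2 * W := by
    rw [hW]
    convert h2 using 2
  linarith

end Pool.Agent.TH951.W.UH
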