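import Pool.Agent.TH951.W.UH.R1
import Pool.Agent.TH951.W.UH.H6

/-!
# Isotriviality
-/

namespace Pool.Agent.TH951.W.UH

open Pool.Agent.TH951.W.UB Pool.Agent.TH951.W.UG Finset Polynomial

variable {k K : Type*} [Field k] [Field K] [Algebra k K]

/-- conjugate over `K` to a map with constant coefficients -/
def ConjConst (k : Type*) {K : Type*} [Field k] [Field K] [Algebra k K] (p q : Polynomial K)
    (d : ℕ) : Prop := ∃ a b c e : K, a * e - b * c ≠ 0 ∧ ∃ u w : Polynomial k, (u ≠ 0 ∨ w ≠ 0) ∧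
  u.natDegree ≤ d ∧ w.natDegree ≤ d ∧
  (C a * p + C b * q) * hc d (w.map (algebraMap k K)) (C a * X + C b) (C c * X + C e) =
  (C c * p + C e * q) * hc d (u.map (algebraMap k K)) (C a * X + C b) (C c * X + C e)

/-- apply a functional to the coefficients -/
noncomputable def lpoly (l : K →ₗ[k] k) (d : ℕ) (g : Polynomial K) : Polynomial k :=
  ∑ i ∈ Finset.range (d + 1), monomial i (l (g.coeff i))

lemma lpoly_eval (l : K →ₗ[k] k) (d : ℕ) (g : Polynomial K) (hg : g.natDegree ≤ d) (s : k) :
    (lpoly l d g).eval s = l (g.eval (algebraMap k K s)) := by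
  unfold lpoly
  rw [eval_finsetSum, eval_eq_sum_range' (n := d + 1) (by omega), map_sum]
  apply Finset.sum_congr rfl
  intro i _
  have : g.coeff i * (algebraMap k K s) ^ i = (s ^ i) • g.coeff i := by
    rw [Algebra.smul_def, map_pow]
    ring
  rw [this, map_smul, smul_eq_mul, eval_monomial]
  ring

lemma lpoly_coeff (l : K →ₗ[k] k) (d : ℕ) (g : Polynomial K) (n : ℕ) (hn : n ≤ d) :
    (lpoly l d g).coeff n = l (g.coeff n) := by
  unfold lpoly
  rw [finsetSum_coeff, Finset.sum_eq_single n]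
  · rw [coeff_monomial, if_pos rfl]
  · intro i _ hi
    rw [coeff_monomial, if_neg hi]
  · intro h
    exact absurd (Finset.mem_range.mpr (by omega)) h

lemma lpoly_degree (l : K →ₗ[k] k) (d : ℕ) (g : Polynomial K) : (lpoly l d g).natDegree ≤ d := by
  unfold lpoly
  apply natDegree_sum_le_of_forall_le
  intro i hi
  rw [Finset.mem_range] at hi
  exact (natDegree_monomial_le _).trans (by omega)

lemma lin_deg (a b : K) : (C a * X + C b : Polynomial K).natDegree ≤ 1 := by
  refine (natDegree_add_le _ _).trans (max_le ?_ (by simp))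
  exact (natDegree_C_mul_le _ _).trans natDegree_X_le

theorem conj_of_const (p q : Polynomial K) (d : ℕ) (hp : p.natDegree ≤ d) (hq : q.natDegree ≤ d)
    (x0 x1 x2 : K) (h01 : x0 ≠ x1) (h02 : x0 ≠ x2) (h12 : x1 ≠ x2) (T U : Finset K)
    (hT : ∀ x ∈ T, x ≠ x2 ∧ ∃ s : k, algebraMap k K s =
      ((x - x0) * (x1 - x2)) / ((x - x2) * (x1 - x0)))
    (hU : ∀ x ∈ U, x ∈ T ∧ q.eval x ≠ 0 ∧ p.eval x / q.eval x ∈ T) (hc : 2 * d + 1 ≤ U.card) :
    ConjConst k p q d := by
  classical
  obtain ⟨a, ha⟩ : ∃ a, a = x1 - x2 := ⟨_, rfl⟩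
  obtain ⟨b, hb⟩ : ∃ b, b = -(x0 * (x1 - x2)) := ⟨_, rfl⟩
  obtain ⟨c, hcc⟩ : ∃ c, c = x1 - x0 := ⟨_, rfl⟩
  obtain ⟨e, he⟩ : ∃ e, e = -(x2 * (x1 - x0)) := ⟨_, rfl⟩
  have hdet : a * e - b * c ≠ 0 := by
    have : a * e - b * c = (x1 - x2) * (x1 - x0) * (x0 - x2) := by
      rw [ha, hb, hcc, he]
      ring
    rw [this]
    exact mul_ne_zero (mul_ne_zero (sub_ne_zero.mpr h12) (sub_ne_zero.mpr h01.symm))
      (sub_ne_zero.mpr h02)
  have hce : ∀ x, x ≠ x2 → c * x + e ≠ 0 := by
    intro x hx
    have : c * x + e = (x1 - x0) * (x - x2) := by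
      rw [hcc, he]
      ring
    rw [this]
    exact mul_ne_zero (sub_ne_zero.mpr h01.symm) (sub_ne_zero.mpr hx)
  have hT' : ∀ x ∈ T, x ≠ x2 ∧ ∃ s : k, algebraMap k K s = (a * x + b) / (c * x + e) := by
    intro x hx
    obtain ⟨h1, s, hs⟩ := hT x hx
    refine ⟨h1, s, ?_⟩
    rw [hs]
    congr 1
    · rw [ha, hb]
      ring
    · rw [hcc, he]
      ring
  choose! s hs using fun x hx => (hT' x hx).2
  have hx2 : ∀ x ∈ T, x ≠ x2 := fun x hx => (hT' x hx).1
  -- inverse coordinates
  have hinv : ∀ x ∈ T, a - c * algebraMap k K (s x) ≠ 0 ∧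
      (e * algebraMap k K (s x) - b) / (a - c * algebraMap k K (s x)) = x := by
    intro x hx
    have h1 := hce x (hx2 x hx)
    rw [hs x hx]
    have h2 : a - c * ((a * x + b) / (c * x + e)) = (a * e - b * c) / (c * x + e) := by
      rw [eq_div_iff h1, sub_mul, mul_assoc, div_mul_cancel₀ _ h1]
      ring
    have h3 : e * ((a * x + b) / (c * x + e)) - b = (a * e - b * c) * x / (c * x + e) := by
      rw [eq_div_iff h1, sub_mul, mul_assoc, div_mul_cancel₀ _ h1]
      ring
    rw [h2, h3]
    refine ⟨div_ne_zero hdet h1, ?_⟩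
    field_simp
  set gp := Pool.Agent.TH951.W.UH.hc d p (C e * X + C (-b)) (C (-c) * X + C a) with hgp
  set gq := Pool.Agent.TH951.W.UH.hc d q (C e * X + C (-b)) (C (-c) * X + C a) with hgq
  have hgpd : gp.natDegree ≤ d := by
    have := hc_degree d 1 p _ _ (lin_deg e (-b)) (lin_deg (-c) a)
    rwa [mul_one] at this
  have hgqd : gq.natDegree ≤ d := by
    have := hc_degree d 1 q _ _ (lin_deg e (-b)) (lin_deg (-c) a)
    rwa [mul_one] at this
  have hgpe : ∀ x ∈ T, gp.eval (algebraMap k K (s x)) =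
      (a - c * algebraMap k K (s x)) ^ d * p.eval x := by
    intro x hx
    obtain ⟨h1, h2⟩ := hinv x hx
    have e1 : eval (algebraMap k K (s x)) (C (-c) * X + C a) = a - c * algebraMap k K (s x) := by
      simp
      ring
    have e2 : eval (algebraMap k K (s x)) (C e * X + C (-b)) = e * algebraMap k K (s x) - b := by
      simp
      ring
    rw [hgp, hc_eval, e1, e2, hev_eval _ _ hp _ h1, h2]
  have hgqe : ∀ x ∈ T, gq.eval (algebraMap k K (s x)) =
      (a - c * algebraMap k K (s x)) ^ d * q.eval x := by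
    intro x hx
    obtain ⟨h1, h2⟩ := hinv x hx
    have e1 : eval (algebraMap k K (s x)) (C (-c) * X + C a) = a - c * algebraMap k K (s x) := by
      simp
      ring
    have e2 : eval (algebraMap k K (s x)) (C e * X + C (-b)) = e * algebraMap k K (s x) - b := by
      simp
      ring
    rw [hgq, hc_eval, e1, e2, hev_eval _ _ hq _ h1, h2]
  set uK := C a * gp + C b * gq with huK
  set wK := C c * gp + C e * gq with hwK
  have huKd : uK.natDegree ≤ d := (natDegree_add_le _ _).trans
    (max_le ((natDegree_C_mul_le _ _).trans hgpd) ((natDegree_C_mul_le _ _).trans hgqd))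
  have hwKd : wK.natDegree ≤ d := (natDegree_add_le _ _).trans
    (max_le ((natDegree_C_mul_le _ _).trans hgpd) ((natDegree_C_mul_le _ _).trans hgqd))
  have hrel : ∀ x ∈ U, uK.eval (algebraMap k K (s x)) =
      algebraMap k K (s (p.eval x / q.eval x)) * wK.eval (algebraMap k K (s x)) := by
    intro x hx
    obtain ⟨h1, h2, h3⟩ := hU x hx
    have h4 := hce _ (hx2 _ h3)
    rw [huK, hwK]
    simp only [eval_add, eval_mul, eval_C]
    rw [hgpe x h1, hgqe x h1, hs _ h3]
    obtain ⟨y, hy⟩ : ∃ y, y = p.eval x / q.eval x := ⟨_, rfl⟩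
    have h5 : p.eval x = y * q.eval x := by
      rw [hy]
      field_simp
    rw [← hy] at h4 ⊢
    rw [h5]
    field_simp
  obtain ⟨x, hx⟩ : U.Nonempty := Finset.card_pos.mp (by omega)
  have hne : uK ≠ 0 ∨ wK ≠ 0 := by
    by_contra hcon
    push Not at hcon
    obtain ⟨h1, h2⟩ := hcon
    obtain ⟨g1, g2, g3⟩ := hU x hx
    have e1 := congrArg (eval (algebraMap k K (s x))) h1
    have e2 := congrArg (eval (algebraMap k K (s x))) h2
    rw [huK] at e1
    rw [hwK] at e2
    simp only [eval_add, eval_mul, eval_C, eval_zero] at e1 e2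
    rw [hgpe x g1, hgqe x g1] at e1 e2
    have h3 : (a * e - b * c) * ((a - c * algebraMap k K (s x)) ^ d * q.eval x) = 0 := by
      linear_combination a * e2 - c * e1
    exact mul_ne_zero hdet (mul_ne_zero (pow_ne_zero _ (hinv x g1).1) g2) h3
  -- a coefficient
  obtain ⟨c0, hc0, hcoef⟩ : ∃ c0 : K, c0 ≠ 0 ∧ ((∃ n, n ≤ d ∧ uK.coeff n = c0) ∨
      ∃ n, n ≤ d ∧ wK.coeff n = c0) := by
    rcases hne with h | h
    · exact ⟨uK.leadingCoeff, leadingCoeff_ne_zero.mpr h, Or.inl ⟨_, huKd, rfl⟩⟩
    · exact ⟨wK.leadingCoeff, leadingCoeff_ne_zero.mpr h, Or.inr ⟨_, hwKd, rfl⟩⟩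
  obtain ⟨l, hl⟩ : ∃ l : Module.Dual k K, l c0 ≠ 0 := by
    by_contra hcon
    push Not at hcon
    exact hc0 ((Module.forall_dual_apply_eq_zero_iff k c0).mp hcon)
  set u := lpoly l d uK with hu
  set w := lpoly l d wK with hw
  have huw : ∀ x ∈ U, u.eval (s x) = s (p.eval x / q.eval x) * w.eval (s x) := by
    intro x hx
    rw [hu, hw, lpoly_eval l d uK huKd, lpoly_eval l d wK hwKd, hrel x hx, ← Algebra.smul_def,
      map_smul, smul_eq_mul]
  refine ⟨a, b, c, e, hdet, u, w, ?_, lpoly_degree l d uK, lpoly_degree l d wK, ?_⟩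
  · rcases hcoef with ⟨n, hn, h⟩ | ⟨n, hn, h⟩
    · left
      intro h0
      have h1 := lpoly_coeff l d uK n hn
      rw [← hu, h0, coeff_zero, h] at h1
      exact hl h1.symm
    · right
      intro h0
      have h1 := lpoly_coeff l d wK n hn
      rw [← hw, h0, coeff_zero, h] at h1
      exact hl h1.symm
  · rw [← sub_eq_zero]
    have hub : (u.map (algebraMap k K)).natDegree ≤ d :=
      natDegree_map_le.trans (lpoly_degree l d uK)
    have hwb : (w.map (algebraMap k K)).natDegree ≤ d :=
      natDegree_map_le.trans (lpoly_degree l d wK)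
    apply eq_zero_of_natDegree_lt_card_of_eval_eq_zero' _ U
    · intro x hx
      obtain ⟨h1, h2, h3⟩ := hU x hx
      have h4 := hce _ (hx2 _ h3)
      have h5 := hce _ (hx2 _ h1)
      have e1 : eval x (C a * X + C b) = a * x + b := by simp
      have e2 : eval x (C c * X + C e) = c * x + e := by simp
      rw [eval_sub, eval_mul, eval_mul, hc_eval, hc_eval, e1, e2, hev_eval _ _ hwb _ h5,
        hev_eval _ _ hub _ h5]
      simp only
      rw [← hs x h1, eval_map_algebraMap, eval_map_algebraMap, aeval_algebraMap_apply,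
        aeval_algebraMap_apply]
      simp only [coe_aeval_eq_eval, eval_add, eval_mul, eval_C]
      rw [huw x hx, map_mul, hs _ h3]
      obtain ⟨y, hy⟩ : ∃ y, y = p.eval x / q.eval x := ⟨_, rfl⟩
      have h6 : p.eval x = y * q.eval x := by
        rw [hy]
        field_simp
      rw [← hy] at h4 ⊢
      rw [h6]
      have hk : (c * y + e) * ((a * y + b) / (c * y + e)) = a * y + b := mul_div_cancel₀ _ h4
      linear_combination (-(q.eval x * (c * x + e) ^ d * algebraMap k K (w.eval (s x)))) * hk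
    · have h1 : ∀ A : Polynomial K, ∀ α β : K, A.natDegree ≤ d →
          ((C α * p + C β * q) * Pool.Agent.TH951.W.UH.hc d A (C a * X + C b)
            (C c * X + C e)).natDegree ≤ 2 * d := by
        intro A α β _
        refine natDegree_mul_le.trans ?_
        have h2 : (C α * p + C β * q).natDegree ≤ d := (natDegree_add_le _ _).trans
          (max_le ((natDegree_C_mul_le _ _).trans hp) ((natDegree_C_mul_le _ _).trans hq))
        have h3 := hc_degree d 1 A _ _ (lin_deg a b) (lin_deg c e)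
        omega
      refine lt_of_le_of_lt ((natDegree_sub_le _ _).trans (max_le (h1 _ a b hwb) (h1 _ c e hub))) ?_
      omega

/-- A large subset with constant cross ratios. -/
theorem conj_of_cross [DecidableEq K] (p q : Polynomial K) (d : ℕ) (hp : p.natDegree ≤ d)
    (hq : q.natDegree = d) (hd : 2 ≤ d) (hpq : IsCoprime p q) (P : Finset K)
    (hP : ∀ z ∈ P, q.eval z ≠ 0 ∧ p.eval z / q.eval z ∈ P) (T : Finset K) (hTP : T ⊆ P)
    (hcr : ∀ x0 ∈ T, ∀ x1 ∈ T, ∀ x2 ∈ T, ∀ x ∈ T, x0 ≠ x1 → x0 ≠ x2 → x1 ≠ x2 → x ≠ x2 →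
      x ≠ x0 → ∃ s : k, algebraMap k K s = ((x - x0) * (x1 - x2)) / ((x - x2) * (x1 - x0)))
    (hcard : (d + 1) * (P \ T).card + (3 * d + 4) ≤ P.card) : ConjConst k p q d := by
  have hTc : (P \ T).card + T.card = P.card := by
    rw [Finset.card_sdiff_of_subset hTP]
    have := Finset.card_le_card hTP
    omega
  have h1 : (P \ T).card ≤ (d + 1) * (P \ T).card := Nat.le_mul_of_pos_left _ (by omega)
  obtain ⟨x0, hx0, x1, hx1, x2, hx2, h01, h02, h12⟩ := Finset.two_lt_card.mp
    (show 2 < T.card by omega)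
  set T' := T.erase x2 with hT'
  have hT'P : T' ⊆ P := (Finset.erase_subset _ _).trans hTP
  set fz : K → K := fun x => p.eval x / q.eval x with hfz
  set U := T'.filter fun x => fz x ∈ T' with hU
  have hUP : U ⊆ P := (Finset.filter_subset _ _).trans hT'P
  have hT'c : (P \ T').card ≤ (P \ T).card + 1 := by
    have h2 : P \ T' ⊆ insert x2 (P \ T) := by
      intro x hx
      rw [Finset.mem_sdiff] at hx
      rw [Finset.mem_insert, Finset.mem_sdiff]
      by_cases h : x = x2
      · exact Or.inl h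
      · right
        refine ⟨hx.1, fun h' => hx.2 ?_⟩
        rw [hT', Finset.mem_erase]
        exact ⟨h, h'⟩
    exact (Finset.card_le_card h2).trans (Finset.card_insert_le _ _)
  have hUc : (P \ U).card ≤ (P \ T').card + d * (P \ T').card := by
    have h2 : P \ U ⊆ (P \ T') ∪ P.filter fun x => fz x ∈ P \ T' := by
      intro x hx
      rw [Finset.mem_sdiff] at hx
      rw [Finset.mem_union]
      by_cases hxT : x ∈ T'
      · right
        rw [Finset.mem_filter, Finset.mem_sdiff]
        refine ⟨hx.1, (hP x hx.1).2, fun h => hx.2 ?_⟩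
        rw [hU, Finset.mem_filter]
        exact ⟨hxT, h⟩
      · left
        rw [Finset.mem_sdiff]
        exact ⟨hx.1, hxT⟩
    refine (Finset.card_le_card h2).trans ((Finset.card_union_le _ _).trans ?_)
    apply Nat.add_le_add_left
    apply Finset.card_le_mul_card_image_of_maps_to (f := fz)
    · intro x hx
      exact (Finset.mem_filter.mp hx).2
    · intro y _
      have hfy : p - C y * q ≠ 0 := by
        intro h0
        have h3 : p = C y * q := sub_eq_zero.mp h0
        rw [h3] at hpq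
        have h4 : IsUnit q := by
          obtain ⟨a, b, hab⟩ := hpq
          apply IsUnit.of_mul_eq_one (a * C y + b)
          rw [← hab]
          ring
        have := natDegree_eq_zero_of_isUnit h4
        omega
      have h3 : ((P.filter fun x => fz x ∈ P \ T').filter fun x => fz x = y) ⊆
          (p - C y * q).roots.toFinset := by
        intro x hx
        rw [Finset.mem_filter, Finset.mem_filter] at hx
        rw [Multiset.mem_toFinset, mem_roots hfy, IsRoot.def, eval_sub, eval_mul, eval_C]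
        have h4 := (hP x hx.1.1).1
        have h5 : p.eval x / q.eval x = y := hx.2
        rw [div_eq_iff h4] at h5
        rw [h5, sub_self]
      refine (Finset.card_le_card h3).trans ((Multiset.toFinset_card_le _).trans ?_)
      refine (card_roots' _).trans ?_
      refine (natDegree_sub_le _ _).trans (max_le hp ?_)
      exact (natDegree_C_mul_le _ _).trans hq.le
  have hUc2 : (P \ U).card + U.card = P.card := by
    rw [Finset.card_sdiff_of_subset hUP]
    have := Finset.card_le_card hUP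
    omega
  have h3 : (P \ T').card + d * (P \ T').card ≤ (d + 1) * (P \ T).card + (d + 1) := by
    have h4 : (P \ T').card + d * (P \ T').card = (d + 1) * (P \ T').card := by ring
    rw [h4]
    calc (d + 1) * (P \ T').card ≤ (d + 1) * ((P \ T).card + 1) := Nat.mul_le_mul_left _ hT'c
      _ = _ := by ring
  apply conj_of_const p q d hp hq.le x0 x1 x2 h01 h02 h12 T' U
  · intro x hx
    rw [hT', Finset.mem_erase] at hx
    refine ⟨hx.1, ?_⟩
    by_cases h : x = x0
    · refine ⟨0, ?_⟩
      rw [h]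
      simp
    · exact hcr x0 hx0 x1 hx1 x2 hx2 x hx.2 h01 h02 h12 hx.1 h
  · intro x hx
    rw [hU, Finset.mem_filter] at hx
    exact ⟨hx.1, (hP x (hT'P hx.1)).1, hx.2⟩
  · omega

/-- Quadratic derivations kill the cross ratios. -/
lemma cross_of_quad (Q : PlaceData k K) (T : Finset K) (α β γ : K)
    (hT : ∀ x ∈ T, Q.D x = α * x ^ 2 + β * x + γ) (x0 x1 x2 x : K) (h0 : x0 ∈ T) (h1 : x1 ∈ T)
    (h2 : x2 ∈ T) (hx : x ∈ T) :
    Q.D (((x - x0) * (x1 - x2)) / ((x - x2) * (x1 - x0))) = 0 := by
  rw [Derivation.leibniz_div]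
  simp only [Derivation.leibniz, map_sub, hT x hx, hT x0 h0, hT x1 h1, hT x2 h2, smul_eq_mul]
  apply mul_eq_zero_of_right
  ring

end Pool.Agent.TH951.W.UH
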