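import Pool.Agent.TH951.W.UH.G1

/-!
# All rational maps on the projective line
-/

namespace Pool.Agent.TH951.W.UH

open Pool.Agent.TH951.W.UB Pool.Agent.TH951.W.UG Finset Polynomial

universe u u1 u2

variable {k : Type*} {K : Type u} [Field k] [Field K] [Algebra k K]

/-- the self-map of the projective line given by `p / q` -/
noncomputable def ratP1 {K : Type*} [Field K] (p q : Polynomial K) (d : ℕ) : Option K → Option K
  | some x => by classical exact if q.eval x = 0 then none else some (p.eval x / q.eval x)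
  | none => by classical exact if q.coeff d = 0 then none else some (p.coeff d / q.coeff d)

lemma ratP1_some (p q : Polynomial K) (d : ℕ) (x : K) (h : q.eval x ≠ 0) :
    ratP1 p q d (some x) = some (p.eval x / q.eval x) := by
  unfold ratP1
  exact if_neg h

lemma ratP1_some0 (p q : Polynomial K) (d : ℕ) (x : K) (h : q.eval x = 0) :
    ratP1 p q d (some x) = none := by
  unfold ratP1
  exact if_pos h

lemma ratP1_none (p q : Polynomial K) (d : ℕ) (h : q.coeff d ≠ 0) :
    ratP1 p q d none = some (p.coeff d / q.coeff d) := by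
  unfold ratP1
  exact if_neg h

lemma ratP1_none0 (p q : Polynomial K) (d : ℕ) (h : q.coeff d = 0) :
    ratP1 p q d none = none := by
  unfold ratP1
  exact if_pos h

/-- the coordinate change -/
noncomputable def phc (c : K) : Option K → K
  | some x => (x - c)⁻¹
  | none => 0

/-- the new numerator -/
noncomputable def pc (d : ℕ) (q : Polynomial K) (c : K) : Polynomial K :=
  hc d q (C c * X + C 1) (C 1 * X + C 0)

lemma pc_degree (d : ℕ) (q : Polynomial K) (c : K) : (pc d q c).natDegree ≤ d := by
  have := hc_degree d 1 q _ _ (lin_deg c 1) (lin_deg 1 0)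
  rwa [mul_one] at this

lemma pc_eval (d : ℕ) (q : Polynomial K) (c y : K) : (pc d q c).eval y = hev d q (c * y + 1, y) := by
  unfold pc
  rw [hc_eval]
  simp

lemma pc_eval_inv (d : ℕ) (q : Polynomial K) (hq : q.natDegree ≤ d) (c x : K) (h : x ≠ c) :
    (x - c) ^ d * (pc d q c).eval (x - c)⁻¹ = q.eval x := by
  have h0 : x - c ≠ 0 := sub_ne_zero.mpr h
  rw [pc_eval, ← hev_smul]
  have : (x - c) • ((c * (x - c)⁻¹ + 1, (x - c)⁻¹) : K × K) = (x, 1) := by
    ext
    · simp only [Prod.smul_fst, smul_eq_mul]
      field_simp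
      ring
    · simp only [Prod.smul_snd, smul_eq_mul]
      exact mul_inv_cancel₀ h0
  rw [this, hev_one d q hq]

lemma pc_eval_zero (d : ℕ) (q : Polynomial K) (c : K) : (pc d q c).eval 0 = q.coeff d := by
  rw [pc_eval]
  have : (c * 0 + 1, (0 : K)) = ((1, 0) : K × K) := by simp
  rw [this, hev_zero]
  simp

lemma pc_coeff (d : ℕ) (q : Polynomial K) (hq : q.natDegree ≤ d) (c : K) :
    (pc d q c).coeff d = q.eval c := by
  have h := hc_coeff d 1 q _ _ (lin_deg c 1) (lin_deg (1 : K) 0)
  rw [mul_one] at h
  unfold pc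
  rw [h]
  have e1 : (C c * X + C 1 : Polynomial K).coeff 1 = c := by simp [coeff_one]
  have e2 : (C (1 : K) * X + C 0 : Polynomial K).coeff 1 = 1 := by simp
  rw [e1, e2, hev_one d q hq]

lemma pc_coprime (d : ℕ) (hd : 1 ≤ d) (p q : Polynomial K) (hp : p.natDegree ≤ d)
    (hq : q.natDegree ≤ d) (hco : IsCoprime p q) (hmax : p.coeff d ≠ 0 ∨ q.coeff d ≠ 0) (c : K) :
    IsCoprime (pc d q c) (pc d (p - C c * q) c) := by
  refine (isCoprime_iff_aeval_ne_zero_of_isAlgClosed (k := K) (AlgebraicClosure K) _ _).mpr ?_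
  intro y
  by_contra hcon
  push Not at hcon
  obtain ⟨h1, h2⟩ := hcon
  unfold pc at h1 h2
  rw [hc_aeval] at h1 h2
  set φ := algebraMap K (AlgebraicClosure K) with hφ
  have e1 : aeval y (C c * X + C 1 : Polynomial K) = φ c * y + 1 := by simp [hφ]
  have e2 : aeval y (C 1 * X + C 0 : Polynomial K) = y := by simp
  rw [e1, e2] at h1 h2
  have hpq : (p - C c * q).natDegree ≤ d :=
    (natDegree_sub_le _ _).trans (max_le hp ((natDegree_C_mul_le _ _).trans hq))
  by_cases hy : y = 0
  · rw [hy] at h1 h2
    rw [hev_zero] at h1 h2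
    simp only [mul_zero, zero_add, one_pow, mul_one] at h1 h2
    rw [coeff_map] at h1 h2
    have g1 : q.coeff d = 0 := (map_eq_zero φ).mp h1
    have g2 : (p - C c * q).coeff d = 0 := (map_eq_zero φ).mp h2
    rw [coeff_sub, coeff_C_mul, g1, mul_zero, sub_zero] at g2
    rcases hmax with h | h
    · exact h g2
    · exact h g1
  · rw [hev_eval _ _ (natDegree_map_le.trans hq) _ hy] at h1
    rw [hev_eval _ _ (natDegree_map_le.trans hpq) _ hy] at h2
    have g1 := (mul_eq_zero.mp h1).resolve_left (pow_ne_zero _ hy)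
    have g2 := (mul_eq_zero.mp h2).resolve_left (pow_ne_zero _ hy)
    rw [eval_map_algebraMap] at g1 g2
    rw [map_sub, map_mul, g1, mul_zero, sub_zero] at g2
    obtain ⟨u, w, huw⟩ := hco
    have := congrArg (aeval ((φ c * y + 1, y).1 / (φ c * y + 1, y).2 : AlgebraicClosure K)) huw
    rw [map_add, map_mul, map_mul, g1, g2, mul_zero, mul_zero, add_zero, map_one] at this
    exact zero_ne_one this

/-- transfer of isotriviality -/
lemma conj_transfer [Infinite K] (d : ℕ) (p q : Polynomial K) (hp : p.natDegree ≤ d)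
    (hq : q.natDegree ≤ d) (c : K)
    (h : ConjConst k (pc d q c) (pc d (p - C c * q) c) d) : ConjConst k p q d := by
  obtain ⟨A, B, G, E, hdet, u, w, hne, hu, hw, hid⟩ := h
  refine ⟨B, A - B * c, E, G - E * c, ?_, u, w, hne, hu, hw, ?_⟩
  · intro h0
    apply hdet
    linear_combination -h0
  · apply Polynomial.eq_of_infinite_eval_eq
    apply Set.Infinite.mono (s := {x | x ≠ c})
    · intro x hx
      have hx' : x ≠ c := hx
      have h0 : x - c ≠ 0 := sub_ne_zero.mpr hx'
      have hpq : (p - C c * q).natDegree ≤ d :=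
        (natDegree_sub_le _ _).trans (max_le hp ((natDegree_C_mul_le _ _).trans hq))
      have h1 := congrArg (eval (x - c)⁻¹) hid
      have e1 := pc_eval_inv d q hq c x hx'
      have e2 := pc_eval_inv d (p - C c * q) hpq c x hx'
      rw [eval_sub, eval_mul, eval_C] at e2
      have e3 : ∀ g : Polynomial K, (x - c) ^ d * (Pool.Agent.TH951.W.UH.hc d g (C A * X + C B)
          (C G * X + C E)).eval (x - c)⁻¹ = (Pool.Agent.TH951.W.UH.hc d g
          (C B * X + C (A - B * c)) (C E * X + C (G - E * c))).eval x := by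
        intro g
        rw [hc_eval, hc_eval, ← hev_smul]
        congr 1
        ext
        · simp only [Prod.smul_fst, smul_eq_mul, eval_add, eval_mul, eval_C, eval_X]
          field_simp
          ring
        · simp only [Prod.smul_snd, smul_eq_mul, eval_add, eval_mul, eval_C, eval_X]
          field_simp
          ring
      rw [Set.mem_setOf_eq, eval_mul, eval_mul, ← e3, ← e3]
      simp only [eval_add, eval_mul, eval_C] at h1 ⊢
      have e4 : B * p.eval x + (A - B * c) * q.eval x = (x - c) ^ d *
          (A * (pc d q c).eval (x - c)⁻¹ + B * (pc d (p - C c * q) c).eval (x - c)⁻¹) := by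
        linear_combination (-A) * e1 - B * e2
      have e5 : E * p.eval x + (G - E * c) * q.eval x = (x - c) ^ d *
          (G * (pc d q c).eval (x - c)⁻¹ + E * (pc d (p - C c * q) c).eval (x - c)⁻¹) := by
        linear_combination (-G) * e1 - E * e2
      rw [e4, e5]
      linear_combination ((x - c) ^ d * (x - c) ^ d) * h1
    · exact (Set.finite_singleton c).infinite_compl

end Pool.Agent.TH951.W.UH
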