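import Pool.Agent.TH951.W.UH.H6
import Pool.Agent.TH951.W.UG.B6

/-!
# The global inequality at one scale
-/

namespace Pool.Agent.TH951.W.UH

open Pool.Agent.TH951.W.UB Pool.Agent.TH951.W.UG Finset Polynomial

universe u

variable {k : Type*} {K : Type u} [Field k] [Field K] [Algebra k K] [DecidableEq K]

lemma R_zero {Q : PlaceData k K} {v : Q.Pl} {d : ℕ} (hd : 2 ≤ d) {P : Finset K} {a : K → ℝ}
    {ρ : ℝ} (L : LD Q v d P a ρ) (hq : q₀ d < P.card)
    (h0 : ∀ x ∈ P, ∀ y ∈ P, x ≠ y → GG Q v a ρ x y = 0) : L.R = 0 := by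
  by_contra hne
  have hR : 1 ≤ L.R := Nat.one_le_iff_ne_zero.mpr hne
  obtain ⟨χ, hχ⟩ := L.hC hR
  have hRR : (1 : ℝ) ≤ L.R := by exact_mod_cast hR
  obtain ⟨x, hx, y, hy, hxy, hc⟩ := Finset.exists_ne_map_eq_of_card_lt_of_maps_to
    (s := P) (t := (Finset.univ : Finset (Fin (q₀ d)))) (f := χ)
    (by rw [Finset.card_univ, Fintype.card_fin]; exact hq) (fun _ _ => Finset.mem_univ _)
  have h1 := hχ x hx y hy hxy hc
  have h2 := hχ y hy x hx hxy.symm hc.symm
  have e1 := L.o_ord hx hy hxy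
  have e2 := L.o_ord hy hx hxy.symm
  have e1' : (L.o x y : ℝ) = Q.ord v (lc L.μ L.lam L.ν x - lc L.μ L.lam L.ν y) := by
    exact_mod_cast e1
  have e2' : (L.o y x : ℝ) = Q.ord v (lc L.μ L.lam L.ν y - lc L.μ L.lam L.ν x) := by
    exact_mod_cast e2
  rw [← e1'] at h1
  rw [← e2', L.o_symm] at h2
  have h3 := L.GG_eq hx hy hxy
  rw [h0 x hx y hy hxy] at h3
  have hdR : (2 : ℝ) ≤ d := by exact_mod_cast hd
  have h4 : (0 : ℝ) < (L.R : ℝ) / (8 * d * (d + 1)) := by positivity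
  linarith

open Classical in
/-- pair costs -/
noncomputable def cv {Q : PlaceData k K} {d : ℕ} {P : Finset K} {a : Q.Pl → K → ℝ}
    {ρ : Q.Pl → ℝ} (L : ∀ v, LD Q v d P (a v) (ρ v)) (R₀ T : ℕ) (t' : ℝ) (v : Q.Pl)
    (x y : K) : ℕ :=
  if x = y then 0 else if (L v).R = 0 then (L v).o x y else
    if (L v).R ≤ R₀ then lit P (L v).o T t' x y else 0

open Classical in
/-- medium costs -/
noncomputable def mv {Q : PlaceData k K} {d : ℕ} {P : Finset K} {a : Q.Pl → K → ℝ}
    {ρ : Q.Pl → ℝ} (L : ∀ v, LD Q v d P (a v) (ρ v)) (R₀ T : ℕ) (t t' : ℝ) (v : Q.Pl)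
    (x : K) : ℕ :=
  if 1 ≤ (L v).R ∧ (L v).R ≤ R₀ then med P (L v).o T t t' x else 0

theorem scale_main (Q : PlaceData k K) (S : Finset Q.Pl) (d : ℕ) (hd : 2 ≤ d) (P : Finset K)
    (a : Q.Pl → K → ℝ) (ρ : Q.Pl → ℝ) (L : ∀ v, LD Q v d P (a v) (ρ v)) (hq : q₀ d < P.card)
    (hS1 : ∀ v, v ∉ S → ∀ x ∈ P, ∀ y ∈ P, x ≠ y → Q.ord v (x - y) = 0)
    (hS2 : ∀ v, v ∉ S → (∀ x ∈ P, a v x = 0) ∧ ρ v = 0) (hS3 : Q.lossS ⊆ S)
    (hwa : ∀ x ∈ P, ∑ v ∈ S, (Q.wt v : ℝ) * a v x = 0)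
    (hwρ : ∑ v ∈ S, (Q.wt v : ℝ) * ρ v = 0) (κ δ : ℝ) (hκ : κ = 1 / (8 * (d : ℝ) * (d + 1)))
    (hδ : δ = 1 / (4 * ((d : ℝ) + 1))) (θ θ' : ℝ) (hθ : 0 < θ) (hθ' : 0 ≤ θ') (m nn T R₀ : ℕ)
    (hm : 1 ≤ m) (hR₀ : 32 / κ ≤ R₀) (hT : 8 + 3 * R₀ ≤ T) (hm1 : 16 * T / (κ * θ) ≤ m)
    (hm2 : 12 * q₀ d / κ ≤ m) (hnn : (d : ℝ) ^ (2 * nn) ≤ P.card)
    (hcost : 4 / (d : ℝ) ^ nn + T * θ' ≤ κ * δ ^ 2 / (8192 * (m : ℝ) ^ 2))
    (hind : ∀ b ∈ P, ∀ F : (Fin (2 * m) → K) →ₗ[K] K, F ≠ 0 →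
      ∃ C ⊆ P, 1 / (2 * ((d : ℝ) + 1)) * P.card ≤ (C.card : ℝ) ∧ ∀ z ∈ C, F (Phi Q m b z) ≠ 0)
    (H : ℝ) (hH : H = ∑ v ∈ S, (Q.wt v : ℝ) * (L v).R)
    (hmed : ((P.filter fun x => κ / 32 * H < ∑ v ∈ S, (Q.wt v : ℝ) *
      (mv L R₀ T (θ * P.card) (θ' * P.card) v x)).card : ℝ) ≤ P.card / (4 * ((d : ℝ) + 1))) :
    H ≤ 6 / κ * Q.lossT := by
  classical
  have hdR : (2 : ℝ) ≤ d := by exact_mod_cast hd
  have hκ0 : 0 < κ := by rw [hκ]; positivity
  have hδ0 : 0 < δ := by rw [hδ]; positivity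
  have hmR : (1 : ℝ) ≤ m := by exact_mod_cast hm
  set N : ℝ := (P.card : ℝ) with hN
  have hN0 : 0 < N := by
    rw [hN]
    have : 0 < P.card := by omega
    exact_mod_cast this
  have hwt : ∀ v, (0 : ℝ) ≤ Q.wt v := fun v => by exact_mod_cast Q.wt_nonneg v
  have hwt1 : ∀ v, (1 : ℝ) ≤ Q.wt v := fun v => by exact_mod_cast Q.wt_one v
  have hH0 : 0 ≤ H := by
    rw [hH]
    exact Finset.sum_nonneg fun v _ => mul_nonneg (hwt v) (Nat.cast_nonneg _)
  -- outside S
  have hGG0 : ∀ v, v ∉ S → ∀ x ∈ P, ∀ y ∈ P, x ≠ y → GG Q v (a v) (ρ v) x y = 0 := by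
    intro v hv x hx y hy hxy
    unfold GG
    rw [hS1 v hv x hx y hy hxy, (hS2 v hv).1 x hx, (hS2 v hv).1 y hy, (hS2 v hv).2]
    simp
  have hR0 : ∀ v, v ∉ S → (L v).R = 0 := fun v hv => R_zero hd (L v) hq (hGG0 v hv)
  -- product formula for the pairs
  have hpair : ∀ x ∈ P, ∀ y ∈ P, x ≠ y → ∑ v ∈ S, (Q.wt v : ℝ) * GG Q v (a v) (ρ v) x y = 0 := by
    intro x hx y hy hxy
    have h1 := prod_zero Q S (x - y) (sub_ne_zero.mpr hxy) fun v hv => hS1 v hv x hx y hy hxy
    have h2 : ∑ v ∈ S, (Q.wt v : ℝ) * (Q.ord v (x - y) : ℝ) = 0 := by exact_mod_cast h1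
    have h3 : ∀ v, (Q.wt v : ℝ) * GG Q v (a v) (ρ v) x y = (Q.wt v : ℝ) * (Q.ord v (x - y) : ℝ) -
        (Q.wt v : ℝ) * a v x - (Q.wt v : ℝ) * a v y + (Q.wt v : ℝ) * ρ v := by
      intro v
      unfold GG
      ring
    simp_rw [h3]
    rw [Finset.sum_add_distrib, Finset.sum_sub_distrib, Finset.sum_sub_distrib, h2, hwa x hx,
      hwa y hy, hwρ]
    ring
  set t : ℝ := θ * N with ht
  set t' : ℝ := θ' * N with ht'
  have ht0 : 0 < t := mul_pos hθ hN0
  have ht'0 : 0 ≤ t' := mul_nonneg hθ' hN0.le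
  have hTN : 0 ≤ (T : ℝ) * N * t' := mul_nonneg (mul_nonneg (Nat.cast_nonneg _) hN0.le) ht'0
  set c : K → K → ℝ := fun x y => ∑ v ∈ S, (Q.wt v : ℝ) * (cv L R₀ T t' v x y : ℝ) with hc
  have hc0 : ∀ x y, 0 ≤ c x y := fun x y =>
    Finset.sum_nonneg fun v _ => mul_nonneg (hwt v) (Nat.cast_nonneg _)
  set mH : K → ℝ := fun x => ∑ v ∈ S, (Q.wt v : ℝ) * (mv L R₀ T t t' v x : ℝ) with hmH
  set P₀ := P.filter fun x => mH x ≤ κ / 32 * H with hP₀
  have hP₀P : P₀ ⊆ P := Finset.filter_subset _ _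
  have hcard : (P.card : ℝ) = P₀.card + ((P.filter fun x => κ / 32 * H < mH x).card : ℝ) := by
    have h1 := Finset.card_filter_add_card_filter_not (s := P) (fun x => mH x ≤ κ / 32 * H)
    have h2 : (P.filter fun x => ¬ mH x ≤ κ / 32 * H) = P.filter fun x => κ / 32 * H < mH x := by
      apply Finset.filter_congr
      intro x _
      exact not_le
    rw [h2] at h1
    exact_mod_cast h1.symm
  have hd4 : N / (4 * ((d : ℝ) + 1)) ≤ N / 2 := by
    apply div_le_div_of_nonneg_left hN0.le (by norm_num) (by linarith)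
  have hP₀c : N / 2 ≤ P₀.card := by linarith
  have hP₀le : (P₀.card : ℝ) ≤ N := by
    rw [hN]
    exact_mod_cast Finset.card_le_card hP₀P
  have hP₀ne : P₀.Nonempty := by
    rw [Finset.nonempty_iff_ne_empty]
    intro h
    rw [h, Finset.card_empty, Nat.cast_zero] at hP₀c
    linarith
  -- the average cost
  set D : ℝ := (d : ℝ) ^ nn with hD
  have hD0 : 0 < D := by rw [hD]; positivity
  set W : ℝ := 4 * ((4 / D + T * θ') * H) with hW
  have hTθ : 0 ≤ (T : ℝ) * θ' := mul_nonneg (Nat.cast_nonneg _) hθ'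
  have hW0 : 0 ≤ W := by
    rw [hW]
    have : 0 ≤ 4 / D := by positivity
    positivity
  have hsum : ∑ x ∈ P₀, ∑ y ∈ P₀, c x y ≤ W * (P₀.card : ℝ) ^ 2 := by
    have h1 : ∑ x ∈ P₀, ∑ y ∈ P₀, c x y ≤ ∑ x ∈ P, ∑ y ∈ P, c x y := by
      calc _ ≤ ∑ x ∈ P₀, ∑ y ∈ P, c x y := Finset.sum_le_sum fun x _ =>
            Finset.sum_le_sum_of_subset_of_nonneg hP₀P fun y _ _ => hc0 x y
        _ ≤ _ := Finset.sum_le_sum_of_subset_of_nonneg hP₀P fun x _ _ =>
            Finset.sum_nonneg fun y _ => hc0 x y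
    have h2 : ∑ x ∈ P, ∑ y ∈ P, c x y =
        ∑ v ∈ S, (Q.wt v : ℝ) * ∑ x ∈ P, ∑ y ∈ P, (cv L R₀ T t' v x y : ℝ) := by
      simp only [hc, Finset.mul_sum]
      calc _ = ∑ x ∈ P, ∑ v ∈ S, ∑ y ∈ P, (Q.wt v : ℝ) * (cv L R₀ T t' v x y : ℝ) :=
            Finset.sum_congr rfl fun x _ => Finset.sum_comm
        _ = _ := Finset.sum_comm
    have h3 : ∀ v ∈ S, ∑ x ∈ P, ∑ y ∈ P, (cv L R₀ T t' v x y : ℝ) ≤
        (∑ x ∈ P, ∑ y ∈ P, if x = y then 0 else GG Q v (a v) (ρ v) x y) +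
          (4 * N ^ 2 / D * (L v).R + T * N * t' * (L v).R) := by
      intro v _
      by_cases hR : (L v).R = 0
      · rw [hR]
        simp only [Nat.cast_zero, mul_zero, add_zero]
        apply Finset.sum_le_sum
        intro x hx
        apply Finset.sum_le_sum
        intro y hy
        unfold cv
        by_cases hxy : x = y
        · simp [hxy]
        · rw [if_neg hxy, if_neg hxy, if_pos hR, (L v).GG_good hR hx hy hxy]
      · have hR1 : (1 : ℝ) ≤ (L v).R := by exact_mod_cast Nat.one_le_iff_ne_zero.mpr hR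
        have h4 := (L v).hE nn hnn
        have h5 : 4 * (P.card : ℝ) ^ 2 * (L v).R / (d : ℝ) ^ nn = 4 * N ^ 2 / D * (L v).R := by
          rw [hN, hD]
          ring
        rw [h5] at h4
        have h6 : ∑ x ∈ P, ∑ y ∈ P, (cv L R₀ T t' v x y : ℝ) ≤ T * N * t' := by
          by_cases hRR : (L v).R ≤ R₀
          · refine le_trans ?_ (lit_sum P (L v).o T t' ht'0)
            apply Finset.sum_le_sum
            intro x _
            apply Finset.sum_le_sum
            intro y _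
            unfold cv
            by_cases hxy : x = y
            · simp [hxy]
            · rw [if_neg hxy, if_neg hR, if_pos hRR]
          · have : ∑ x ∈ P, ∑ y ∈ P, (cv L R₀ T t' v x y : ℝ) = 0 := by
              apply Finset.sum_eq_zero
              intro x _
              apply Finset.sum_eq_zero
              intro y _
              unfold cv
              rw [if_neg hR, if_neg hRR]
              simp
            rw [this]
            exact hTN
        have h7 : T * N * t' ≤ T * N * t' * (L v).R := le_mul_of_one_le_right hTN hR1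
        linarith
    have h4 : ∑ x ∈ P, ∑ y ∈ P, c x y ≤ (4 / D + T * θ') * H * N ^ 2 := by
      rw [h2]
      have h5 : ∑ v ∈ S, (Q.wt v : ℝ) * ∑ x ∈ P, ∑ y ∈ P, (cv L R₀ T t' v x y : ℝ) ≤
          ∑ v ∈ S, (Q.wt v : ℝ) * ((∑ x ∈ P, ∑ y ∈ P, if x = y then 0 else
            GG Q v (a v) (ρ v) x y) + (4 * N ^ 2 / D * (L v).R + T * N * t' * (L v).R)) :=
        Finset.sum_le_sum fun v hv => mul_le_mul_of_nonneg_left (h3 v hv) (hwt v)
      have h6 : ∑ v ∈ S, (Q.wt v : ℝ) * (∑ x ∈ P, ∑ y ∈ P, if x = y then 0 else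
            GG Q v (a v) (ρ v) x y) = 0 := by
        simp only [Finset.mul_sum]
        rw [Finset.sum_comm]
        apply Finset.sum_eq_zero
        intro x hx
        rw [Finset.sum_comm]
        apply Finset.sum_eq_zero
        intro y hy
        by_cases hxy : x = y
        · simp [hxy]
        · simp only [if_neg hxy]
          exact hpair x hx y hy hxy
      have h7 : ∑ v ∈ S, (Q.wt v : ℝ) * ((∑ x ∈ P, ∑ y ∈ P, if x = y then 0 else
            GG Q v (a v) (ρ v) x y) + (4 * N ^ 2 / D * (L v).R + T * N * t' * (L v).R)) =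
          ∑ v ∈ S, (Q.wt v : ℝ) * (∑ x ∈ P, ∑ y ∈ P, if x = y then 0 else
            GG Q v (a v) (ρ v) x y) + (4 * N ^ 2 / D + T * N * t') *
              ∑ v ∈ S, (Q.wt v : ℝ) * (L v).R := by
        rw [Finset.mul_sum, ← Finset.sum_add_distrib]
        apply Finset.sum_congr rfl
        intro v _
        ring
      rw [h7, h6, ← hH] at h5
      refine h5.trans (le_of_eq ?_)
      rw [ht']
      ring
    refine h1.trans (h4.trans ?_)
    have h5 : N ^ 2 ≤ 4 * (P₀.card : ℝ) ^ 2 := by nlinarith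
    have h6 : 0 ≤ (4 / D + T * θ') * H := by
      have : 0 ≤ 4 / D := by positivity
      positivity
    rw [hW]
    nlinarith
  -- the selection
  have hδ1 : δ ≤ 1 := by
    rw [hδ, div_le_one (by positivity)]
    linarith
  obtain ⟨z, hzP₀, hlin, hzc⟩ := selection P₀ hP₀ne (2 * m) (by omega) (fun b z => Phi Q m b z) c
    hc0 W hW0 hsum δ hδ0 hδ1 (by
      intro b h
      have := congrFun h ⟨0, by omega⟩
      unfold Phi mu at this
      simp at this) (by
      intro b hb F hF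
      obtain ⟨C, hCP, hCc, hCF⟩ := hind b (hP₀P hb) F hF
      refine ⟨C ∩ P₀, Finset.inter_subset_right, ?_, fun z hz => hCF z (Finset.mem_inter.mp hz).1⟩
      have h1 : C.card ≤ (C ∩ P₀).card + (P.filter fun x => κ / 32 * H < mH x).card := by
        refine le_trans (Finset.card_le_card ?_) (Finset.card_union_le _ _)
        intro x hx
        rw [Finset.mem_union, Finset.mem_inter]
        by_cases h : mH x ≤ κ / 32 * H
        · exact Or.inl ⟨hx, Finset.mem_filter.mpr ⟨hCP hx, h⟩⟩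
        · exact Or.inr (Finset.mem_filter.mpr ⟨hCP hx, not_le.mp h⟩)
      have h2 : (C.card : ℝ) ≤ (C ∩ P₀).card +
          ((P.filter fun x => κ / 32 * H < mH x).card : ℝ) := by exact_mod_cast h1
      have h3 : 1 / (2 * ((d : ℝ) + 1)) * N = N / (4 * ((d : ℝ) + 1)) +
          N / (4 * ((d : ℝ) + 1)) := by
        field_simp
        ring
      have h4 : δ * P₀.card ≤ N / (4 * ((d : ℝ) + 1)) := by
        rw [hδ, div_mul_eq_mul_div, one_mul]
        exact div_le_div_of_nonneg_right hP₀le (by positivity)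
      linarith)
  have hzP : ∀ i, z i ∈ P := fun i => hP₀P (hzP₀ i)
  have hzinj : Function.Injective z := by
    intro i j hij
    exact hlin.injective (by simp only [hij])
  set b : Fin (2 * m) := ⟨0, by omega⟩ with hb
  have hdet : cdet Q m z b ≠ 0 := cdet_ne Q m z b hlin
  have hm0 : 0 < m := hm
  -- pointwise lower bound
  have hR₀κ : 32 ≤ κ * R₀ := by
    rw [div_le_iff₀ hκ0] at hR₀
    linarith
  have hpt : ∀ v, κ * (L v).R * (2 * m) - 3 * (L v).R * q₀ d - κ * (L v).R * (2 * m) / 8 -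
      4 * (T / θ) * (L v).R - 4 * ∑ i, (mv L R₀ T t t' v (z i) : ℝ) -
      4 * (∑ i : Fin (2 * m), ∑ j : Fin (2 * m),
        if i.1 < j.1 then (cv L R₀ T t' v (z i) (z j) : ℝ) else 0) -
      4 * Q.loss v * ((m : ℝ) - 1) ≤ Sl Q v (a v) (ρ v) m z b := by
    intro v
    have hn1 : (0 : ℝ) ≤ ∑ i, (mv L R₀ T t t' v (z i) : ℝ) :=
      Finset.sum_nonneg fun i _ => Nat.cast_nonneg _
    have hn2 : (0 : ℝ) ≤ ∑ i : Fin (2 * m), ∑ j : Fin (2 * m),
        if i.1 < j.1 then (cv L R₀ T t' v (z i) (z j) : ℝ) else 0 := by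
      apply Finset.sum_nonneg
      intro i _
      apply Finset.sum_nonneg
      intro j _
      split_ifs
      · exact Nat.cast_nonneg _
      · exact le_rfl
    have hRn : (0 : ℝ) ≤ (L v).R := Nat.cast_nonneg _
    have hTn : (0 : ℝ) ≤ T / θ := by positivity
    by_cases hR : (L v).R = 0
    · have h1 := (L v).slack_good hR m hm0 z hzP hzinj b hdet
      have h2 : (∑ i : Fin (2 * m), ∑ j : Fin (2 * m),
        if i.1 < j.1 then (cv L R₀ T t' v (z i) (z j) : ℝ) else 0) =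
          ∑ i : Fin (2 * m), ∑ j : Fin (2 * m),
            if i.1 < j.1 then GG Q v (a v) (ρ v) (z i) (z j) else 0 := by
        apply Finset.sum_congr rfl
        intro i _
        apply Finset.sum_congr rfl
        intro j _
        split_ifs with h
        · have hij : z i ≠ z j := by
            intro h'
            rw [hzinj h'] at h
            exact lt_irrefl _ h
          unfold cv
          rw [if_neg hij, if_pos hR, (L v).GG_good hR (hzP i) (hzP j) hij]
        · rfl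
      rw [h2, hR]
      simp only [Nat.cast_zero, mul_zero, zero_mul, zero_div, sub_zero]
      linarith
    · have hR1 : 1 ≤ (L v).R := Nat.one_le_iff_ne_zero.mpr hR
      have hR1' : (1 : ℝ) ≤ (L v).R := by exact_mod_cast hR1
      by_cases hRR : (L v).R ≤ R₀
      · have h1 := (L v).slack_small hd hR1 m hm0 z hzP hzinj b hdet T (by omega) t t' ht0
        rw [← hκ] at h1
        have h2 : (∑ i : Fin (2 * m), ∑ j : Fin (2 * m),
          if i.1 < j.1 then (cv L R₀ T t' v (z i) (z j) : ℝ) else 0) =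
            ∑ i : Fin (2 * m), ∑ j : Fin (2 * m),
              if i.1 < j.1 then (lit P (L v).o T t' (z i) (z j) : ℝ) else 0 := by
          apply Finset.sum_congr rfl
          intro i _
          apply Finset.sum_congr rfl
          intro j _
          split_ifs with h
          · have hij : z i ≠ z j := by
              intro h'
              rw [hzinj h'] at h
              exact lt_irrefl _ h
            unfold cv
            rw [if_neg hij, if_neg hR, if_pos hRR]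
          · rfl
        have h3 : ∑ i, (mv L R₀ T t t' v (z i) : ℝ) = ∑ i, (med P (L v).o T t t' (z i) : ℝ) := by
          apply Finset.sum_congr rfl
          intro i _
          unfold mv
          rw [if_pos ⟨hR1, hRR⟩]
        have h4 : (P.card : ℝ) / t = 1 / θ := by
          rw [ht, ← hN]
          field_simp
        rw [h2, h3]
        rw [h4] at h1
        have h5 : T * (1 / θ) = T / θ := by ring
        rw [h5] at h1
        have h6 : T / θ ≤ T / θ * (L v).R := le_mul_of_one_le_right hTn hR1'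
        have h7 : 0 ≤ κ * (L v).R * (2 * m) / 8 := by positivity
        linarith
      · have h1 := (L v).slack_big hd hR1 m hm0 z hzP hzinj b hdet
        rw [← hκ] at h1
        have h2 : (8 : ℝ) * m ≤ κ * (L v).R * (2 * m) / 8 := by
          have h3 : (R₀ : ℝ) ≤ (L v).R := by
            have : R₀ ≤ (L v).R := by omega
            exact_mod_cast this
          have h4 : 32 ≤ κ * (L v).R := hR₀κ.trans (mul_le_mul_of_nonneg_left h3 hκ0.le)
          nlinarith
        have h6 : 0 ≤ T / θ * (L v).R := mul_nonneg hTn hRn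
        linarith
  -- the total slack is nonpositive
  have htot : ∑ v ∈ S, (Q.wt v : ℝ) * Sl Q v (a v) (ρ v) m z b ≤ 0 := by
    have h1 := Q.prod_formula (cdet Q m z b) hdet S (by
      intro v hv
      have h2 := (L v).slack_good (hR0 v hv) m hm0 z hzP hzinj b hdet
      have h3 : ∀ i j : Fin (2 * m), i ≠ j → GG Q v (a v) (ρ v) (z i) (z j) = 0 :=
        fun i j hij => hGG0 v hv _ (hzP i) _ (hzP j) fun h => hij (hzinj h)
      have h4 : (∑ i : Fin (2 * m), ∑ j : Fin (2 * m),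
          if i.1 < j.1 then GG Q v (a v) (ρ v) (z i) (z j) else 0) = 0 := by
        apply Finset.sum_eq_zero
        intro i _
        apply Finset.sum_eq_zero
        intro j _
        split_ifs with h
        · exact h3 i j fun h' => by rw [h'] at h; exact lt_irrefl _ h
        · rfl
      have h5 : (∑ i : Fin (2 * m), ∑ j : Fin (2 * m),
          if i = j then 0 else GG Q v (a v) (ρ v) (z i) (z j)) = 0 := by
        apply Finset.sum_eq_zero
        intro i _
        apply Finset.sum_eq_zero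
        intro j _
        split_ifs with h
        · rfl
        · exact h3 i j h
      have h6 : Q.loss v = 0 := Q.loss_supp v fun h => hv (hS3 h)
      have h7 : ∑ i, a v (z i) = 0 := Finset.sum_eq_zero fun i _ => (hS2 v hv).1 _ (hzP i)
      unfold Sl at h2
      rw [h4, h5, h6, h7, (hS2 v hv).2] at h2
      simp only [Int.cast_zero, mul_zero, zero_mul, neg_zero, sub_zero, add_zero] at h2
      have h8 : (0 : ℝ) ≤ (Q.ord v (cdet Q m z b) : ℝ) := by linarith
      exact_mod_cast h8)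
    have h1' : ∑ v ∈ S, (Q.wt v : ℝ) * (Q.ord v (cdet Q m z b) : ℝ) ≤ 0 := by exact_mod_cast h1
    have h2 : ∑ v ∈ S, (Q.wt v : ℝ) * (∑ i, a v (z i)) = 0 := by
      simp only [Finset.mul_sum]
      rw [Finset.sum_comm]
      exact Finset.sum_eq_zero fun i _ => hwa _ (hzP i)
    have h3 : ∑ v ∈ S, (Q.wt v : ℝ) * (∑ i : Fin (2 * m), ∑ j : Fin (2 * m),
          if i = j then 0 else GG Q v (a v) (ρ v) (z i) (z j)) = 0 := by
      simp only [Finset.mul_sum]
      rw [Finset.sum_comm]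
      apply Finset.sum_eq_zero
      intro i _
      rw [Finset.sum_comm]
      apply Finset.sum_eq_zero
      intro j _
      by_cases hij : i = j
      · simp [hij]
      · simp only [if_neg hij]
        exact hpair _ (hzP i) _ (hzP j) fun h => hij (hzinj h)
    have h4 : ∑ v ∈ S, (Q.wt v : ℝ) * Sl Q v (a v) (ρ v) m z b =
        4 * ∑ v ∈ S, (Q.wt v : ℝ) * (Q.ord v (cdet Q m z b) : ℝ) -
        4 * m * ∑ v ∈ S, (Q.wt v : ℝ) * (∑ i, a v (z i)) +
        4 * (m : ℝ) ^ 2 * ∑ v ∈ S, (Q.wt v : ℝ) * ρ v -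
        ∑ v ∈ S, (Q.wt v : ℝ) * (∑ i : Fin (2 * m), ∑ j : Fin (2 * m),
          if i = j then 0 else GG Q v (a v) (ρ v) (z i) (z j)) := by
      rw [Finset.mul_sum, Finset.mul_sum, Finset.mul_sum, ← Finset.sum_sub_distrib,
        ← Finset.sum_add_distrib, ← Finset.sum_sub_distrib]
      apply Finset.sum_congr rfl
      intro v _
      unfold Sl
      ring
    rw [h4, h2, h3, hwρ]
    linarith
  -- sum of the lower bounds
  have hlow : ∑ v ∈ S, (Q.wt v : ℝ) * (κ * (L v).R * (2 * m) - 3 * (L v).R * q₀ d -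
      κ * (L v).R * (2 * m) / 8 -
      4 * (T / θ) * (L v).R - 4 * ∑ i, (mv L R₀ T t t' v (z i) : ℝ) -
      4 * (∑ i : Fin (2 * m), ∑ j : Fin (2 * m),
        if i.1 < j.1 then (cv L R₀ T t' v (z i) (z j) : ℝ) else 0) -
      4 * Q.loss v * ((m : ℝ) - 1)) ≤ 0 :=
    le_trans (Finset.sum_le_sum fun v _ => mul_le_mul_of_nonneg_left (hpt v) (hwt v)) htot
  have hloss : ∑ v ∈ S, (Q.wt v : ℝ) * Q.loss v ≤ Q.lossT := by
    have h1 : ∑ v ∈ S, Q.wt v * Q.loss v = ∑ v ∈ Q.lossS, Q.wt v * Q.loss v := by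
      symm
      apply Finset.sum_subset hS3
      intro v _ hv
      rw [Q.loss_supp v hv, mul_zero]
    have h2 := Q.loss_sum
    rw [← h1] at h2
    exact_mod_cast h2
  have hloss0 : 0 ≤ ∑ v ∈ S, (Q.wt v : ℝ) * Q.loss v :=
    Finset.sum_nonneg fun v _ => mul_nonneg (hwt v) (by exact_mod_cast Q.loss_nonneg v)
  have hexp : ∑ v ∈ S, (Q.wt v : ℝ) * (κ * (L v).R * (2 * m) - 3 * (L v).R * q₀ d -
      κ * (L v).R * (2 * m) / 8 -
      4 * (T / θ) * (L v).R - 4 * ∑ i, (mv L R₀ T t t' v (z i) : ℝ) -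
      4 * (∑ i : Fin (2 * m), ∑ j : Fin (2 * m),
        if i.1 < j.1 then (cv L R₀ T t' v (z i) (z j) : ℝ) else 0) -
      4 * Q.loss v * ((m : ℝ) - 1)) =
      (κ * (2 * m) - 3 * q₀ d - κ * (2 * m) / 8 - 4 * (T / θ)) * H -
      4 * ∑ i, mH (z i) -
      4 * (∑ i : Fin (2 * m), ∑ j : Fin (2 * m), if i.1 < j.1 then c (z i) (z j) else 0) -
      4 * ((m : ℝ) - 1) * ∑ v ∈ S, (Q.wt v : ℝ) * Q.loss v := by
    have e1 : ∑ i, mH (z i) = ∑ v ∈ S, (Q.wt v : ℝ) * ∑ i, (mv L R₀ T t t' v (z i) : ℝ) := by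
      simp only [hmH, Finset.mul_sum]
      exact Finset.sum_comm
    have e2 : (∑ i : Fin (2 * m), ∑ j : Fin (2 * m), if i.1 < j.1 then c (z i) (z j) else 0) =
        ∑ v ∈ S, (Q.wt v : ℝ) * (∑ i : Fin (2 * m), ∑ j : Fin (2 * m),
        if i.1 < j.1 then (cv L R₀ T t' v (z i) (z j) : ℝ) else 0) := by
      symm
      simp only [Finset.mul_sum]
      rw [Finset.sum_comm]
      apply Finset.sum_congr rfl
      intro i _
      rw [Finset.sum_comm]
      apply Finset.sum_congr rfl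
      intro j _
      by_cases h : i.1 < j.1
      · simp only [if_pos h]
        rfl
      · simp [h]
    rw [e1, e2, hH, Finset.mul_sum, Finset.mul_sum, Finset.mul_sum, Finset.mul_sum,
      ← Finset.sum_sub_distrib, ← Finset.sum_sub_distrib, ← Finset.sum_sub_distrib]
    apply Finset.sum_congr rfl
    intro v _
    ring
  rw [hexp] at hlow
  -- estimate the costs
  have hmedz : ∑ i, mH (z i) ≤ 2 * m * (κ / 32 * H) := by
    calc _ ≤ ∑ _i : Fin (2 * m), κ / 32 * H :=
          Finset.sum_le_sum fun i _ => (Finset.mem_filter.mp (hzP₀ i)).2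
      _ = _ := by
          rw [Finset.sum_const, Finset.card_univ, Fintype.card_fin, nsmul_eq_mul]
          push_cast
          ring
  set cm : ℝ := 16 * ((2 * m : ℕ) : ℝ) * W / δ ^ 2 with hcm
  have hcm0 : 0 ≤ cm := by rw [hcm]; positivity
  have hpairs : (∑ i : Fin (2 * m), ∑ j : Fin (2 * m), if i.1 < j.1 then c (z i) (z j) else 0) ≤
      (2 * m) ^ 2 * cm := by
    calc _ ≤ ∑ _i : Fin (2 * m), ∑ _j : Fin (2 * m), cm := by
          apply Finset.sum_le_sum
          intro i _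
          apply Finset.sum_le_sum
          intro j _
          split_ifs with h
          · exact hzc i j h
          · exact hcm0
      _ = _ := by
          simp only [Finset.sum_const, Finset.card_univ, Fintype.card_fin, nsmul_eq_mul]
          push_cast
          ring
  have hcmle : 4 * ((2 * (m : ℝ)) ^ 2 * cm) ≤ κ * (2 * m) / 8 * H := by
    have h1 : 4 * ((2 * (m : ℝ)) ^ 2 * cm) =
        (2048 * (m : ℝ) ^ 3 / δ ^ 2) * (4 / D + T * θ') * H := by
      rw [hcm, hW]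
      push_cast
      ring
    rw [h1]
    apply mul_le_mul_of_nonneg_right _ hH0
    calc 2048 * (m : ℝ) ^ 3 / δ ^ 2 * (4 / D + T * θ')
        ≤ 2048 * (m : ℝ) ^ 3 / δ ^ 2 * (κ * δ ^ 2 / (8192 * (m : ℝ) ^ 2)) :=
          mul_le_mul_of_nonneg_left hcost (by positivity)
      _ = κ * (2 * m) / 8 := by
          field_simp
          norm_num
  have hq1 : 3 * (q₀ d : ℝ) ≤ κ * (2 * m) / 8 := by
    rw [div_le_iff₀ hκ0] at hm2
    linarith
  have hT1 : 4 * ((T : ℝ) / θ) ≤ κ * (2 * m) / 8 := by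
    rw [div_le_iff₀ (mul_pos hκ0 hθ)] at hm1
    rw [← mul_div_assoc, div_le_iff₀ hθ]
    nlinarith
  have hq1' := mul_le_mul_of_nonneg_right hq1 hH0
  have hT1' := mul_le_mul_of_nonneg_right hT1 hH0
  have hm1' : (0 : ℝ) ≤ m - 1 := by linarith
  have hl : 4 * ((m : ℝ) - 1) * ∑ v ∈ S, (Q.wt v : ℝ) * Q.loss v ≤ 4 * m * Q.lossT := by
    have h1 := mul_le_mul_of_nonneg_left hloss (show (0 : ℝ) ≤ 4 * ((m : ℝ) - 1) by linarith)
    have h2 : (0 : ℝ) ≤ Q.lossT := hloss0.trans hloss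
    nlinarith
  have hfin : (3 / 8) * (κ * (2 * m)) * H ≤ 4 * m * Q.lossT := by
    have h1 : (κ * (2 * m) - 3 * q₀ d - κ * (2 * m) / 8 - 4 * (T / θ)) * H =
      κ * (2 * m) * H - 3 * q₀ d * H - κ * (2 * m) / 8 * H - 4 * (T / θ) * H := by ring
    rw [h1] at hlow
    have h2 : κ * (2 * m) / 8 * H = (1 / 8) * (κ * (2 * m) * H) := by ring
    have h3 : 4 * (2 * m * (κ / 32 * H)) = (1 / 8) * (κ * (2 * m) * H) := by ring
    have h4 : (3 / 8) * (κ * (2 * m)) * H = (3 / 8) * (κ * (2 * m) * H) := by ring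
    rw [h4]
    linarith
  have hfin2 : κ * H ≤ 6 * Q.lossT := by
    have h1 : (3 / 8) * (κ * (2 * m)) * H = m * ((3 / 4) * (κ * H)) := by ring
    have h2 : 4 * (m : ℝ) * Q.lossT = m * (4 * Q.lossT) := by ring
    rw [h1, h2] at hfin
    have h3 := le_of_mul_le_mul_left hfin (by linarith)
    have h4 : (0 : ℝ) ≤ Q.lossT := hloss0.trans hloss
    linarith
  rw [div_mul_eq_mul_div, le_div_iff₀ hκ0]
  linarith

end Pool.Agent.TH951.W.UH
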