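import Pool.Agent.TH951.W.UG.A7

/-!
# Homogeneous maps in dimension two over an ultrametric field
-/

namespace Pool.Agent.TH951.W.UH

open Pool.Agent.TH951.W.UG Finset

/-- the determinant of two vectors -/
def wd {Ω : Type*} [Field Ω] (X Y : Ω × Ω) : Ω := X.1 * Y.2 - X.2 * Y.1

section
variable {Ω : Type*} [Field Ω] {X Y Z : Ω × Ω}

lemma wd_self (X : Ω × Ω) : wd X X = 0 := by unfold wd; ring
lemma wd_comm (X Y : Ω × Ω) : wd X Y = -wd Y X := by unfold wd; ring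
lemma wd_smul_left (t : Ω) (X Y : Ω × Ω) : wd (t • X) Y = t * wd X Y := by
  unfold wd; simp only [Prod.smul_fst, Prod.smul_snd, smul_eq_mul]; ring
lemma wd_smul_right (t : Ω) (X Y : Ω × Ω) : wd X (t • Y) = t * wd X Y := by
  unfold wd; simp only [Prod.smul_fst, Prod.smul_snd, smul_eq_mul]; ring
lemma wd_add_left (X Y Z : Ω × Ω) : wd (X + Y) Z = wd X Z + wd Y Z := by
  unfold wd; simp only [Prod.fst_add, Prod.snd_add]; ring

/-- three term identity -/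
lemma wd_three (X Y U : Ω × Ω) : wd X Y • U = wd X U • Y - wd Y U • X := by
  ext <;> simp only [wd, Prod.smul_fst, Prod.smul_snd, Prod.fst_sub, Prod.snd_sub, smul_eq_mul] <;>
    ring

lemma wd_zero_iff (hY : Y ≠ 0) : wd X Y = 0 ↔ ∃ t : Ω, X = t • Y := by
  constructor
  · intro h
    by_cases h1 : Y.1 = 0
    · have h2 : Y.2 ≠ 0 := fun h2 => hY (Prod.ext h1 h2)
      refine ⟨X.2 / Y.2, ?_⟩
      have h3 : X.1 * Y.2 = 0 := by
        unfold wd at h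
        rw [h1] at h
        simpa using h
      have h4 : X.1 = 0 := (mul_eq_zero.mp h3).resolve_right h2
      ext
      · simp [h1, h4]
      · simp only [Prod.smul_snd, smul_eq_mul]
        field_simp
    · refine ⟨X.1 / Y.1, ?_⟩
      ext
      · simp only [Prod.smul_fst, smul_eq_mul]
        field_simp
      · simp only [Prod.smul_snd, smul_eq_mul]
        unfold wd at h
        field_simp
        linear_combination -h
  · rintro ⟨t, rfl⟩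
    rw [wd_smul_left, wd_self, mul_zero]

end

section
variable {Ω : Type*} [NormedField Ω] [IsUltrametricDist Ω] {X Y Z U : Ω × Ω}

lemma norm_fst_le' (X : Ω × Ω) : ‖X.1‖ ≤ ‖X‖ := norm_fst_le X
lemma norm_snd_le' (X : Ω × Ω) : ‖X.2‖ ≤ ‖X‖ := norm_snd_le X

lemma norm_wd_le (X Y : Ω × Ω) : ‖wd X Y‖ ≤ ‖X‖ * ‖Y‖ := by
  unfold wd
  have h1 : ‖X.1 * Y.2 - X.2 * Y.1‖ ≤ max ‖X.1 * Y.2‖ ‖X.2 * Y.1‖ := by
    have := tri (X.1 * Y.2) 0 (X.2 * Y.1)
    simpa using this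
  refine h1.trans (max_le ?_ ?_)
  · rw [norm_mul]
    exact mul_le_mul (norm_fst_le X) (norm_snd_le Y) (norm_nonneg _) (norm_nonneg _)
  · rw [norm_mul]
    exact mul_le_mul (norm_snd_le X) (norm_fst_le Y) (norm_nonneg _) (norm_nonneg _)

lemma norm_sub_le_max (X Y : Ω × Ω) : ‖X - Y‖ ≤ max ‖X‖ ‖Y‖ := by
  rw [Prod.norm_def]
  apply max_le
  · have := tri X.1 0 Y.1
    simp only [sub_zero, zero_sub, norm_neg] at this
    refine this.trans (max_le_max (norm_fst_le X) (norm_fst_le Y))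
  · have := tri X.2 0 Y.2
    simp only [sub_zero, zero_sub, norm_neg] at this
    refine this.trans (max_le_max (norm_snd_le X) (norm_snd_le Y))

lemma wd_ultra (hX : ‖X‖ = 1) (hY : ‖Y‖ = 1) (hU : ‖U‖ = 1) :
    ‖wd X Y‖ ≤ max ‖wd X U‖ ‖wd U Y‖ := by
  have h1 := congrArg norm (wd_three X Y U)
  rw [norm_smul, hU, mul_one] at h1
  rw [h1]
  refine (norm_sub_le_max _ _).trans ?_
  rw [norm_smul, norm_smul, hX, hY, mul_one, mul_one, wd_comm Y U, norm_neg]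

/-- a vector is controlled by its determinants with a unimodular basis -/
lemma norm_le_of_wd (hX : ‖X‖ = 1) (hY : ‖Y‖ = 1) (hXY : ‖wd X Y‖ = 1) (V : Ω × Ω) :
    ‖V‖ ≤ max ‖wd V X‖ ‖wd V Y‖ := by
  have h1 := congrArg norm (wd_three X Y V)
  rw [norm_smul, hXY, one_mul] at h1
  rw [h1]
  refine (norm_sub_le_max _ _).trans ?_
  rw [norm_smul, norm_smul, hX, hY, mul_one, mul_one, wd_comm X V, wd_comm Y V, norm_neg, norm_neg]

lemma norm_eq_of_e (V : Ω × Ω) : ‖V‖ = max ‖wd V (0, 1)‖ ‖wd V (1, 0)‖ := by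
  unfold wd
  simp [Prod.norm_def]

lemma norm_e1 : ‖((1, 0) : Ω × Ω)‖ = 1 := by simp [Prod.norm_def]
lemma norm_e2 : ‖((0, 1) : Ω × Ω)‖ = 1 := by simp [Prod.norm_def]

lemma norm_pair_one {c : Ω} (hc : ‖c‖ ≤ 1) : ‖((c, 1) : Ω × Ω)‖ = 1 := by
  simp [Prod.norm_def, hc]

end

/-- A homogeneous map of degree `d` without zeros, with resultant of size `exp (-Res)`. -/
structure HS (Ω : Type*) [NormedField Ω] where
  /-- the map -/
  F : Ω × Ω → Ω × Ω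
  /-- the degree -/
  d : ℕ
  hd : 1 ≤ d
  /-- the order of the resultant -/
  Res : ℝ
  hom : ∀ (t : Ω) X, F (t • X) = t ^ d • F X
  nz : ∀ X, X ≠ 0 → F X ≠ 0
  roots : ∀ Y, ‖Y‖ = 1 → ∃ (c : Ω) (η : Fin d → Ω × Ω), c ≠ 0 ∧ (∀ l, ‖η l‖ = 1) ∧
    (∀ X, wd (F X) Y = c * ∏ l, wd X (η l)) ∧ ‖c‖ ^ d * ∏ l, ‖F (η l)‖ = Real.exp (-Res)

namespace HS
variable {Ω : Type*} [NormedField Ω] (S : HS Ω)

/-- a root system -/
def IsRS (Y : Ω × Ω) (c : Ω) (η : Fin S.d → Ω × Ω) : Prop :=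
  c ≠ 0 ∧ (∀ l, ‖η l‖ = 1) ∧ (∀ X, wd (S.F X) Y = c * ∏ l, wd X (η l)) ∧
    ‖c‖ ^ S.d * ∏ l, ‖S.F (η l)‖ = Real.exp (-S.Res)

variable {S} {Y Y' X : Ω × Ω} {c c' : Ω} {η η' : Fin S.d → Ω × Ω}

lemma rs_root (h : S.IsRS Y c η) (hY : ‖Y‖ = 1) (l : Fin S.d) : ∃ t : Ω, S.F (η l) = t • Y := by
  rw [← wd_zero_iff (by rintro rfl; simp at hY), h.2.2.1]
  rw [Finset.prod_eq_zero (Finset.mem_univ l) (wd_self _), mul_zero]

lemma rs_ord (h : S.IsRS Y c η) (X : Ω × Ω) : ‖wd (S.F X) Y‖ = ‖c‖ * ∏ l, ‖wd X (η l)‖ := by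
  rw [h.2.2.1, norm_mul, norm_prod]

/-- `F (η l)` against another vector -/
lemma rs_other (h : S.IsRS Y c η) (hY : ‖Y‖ = 1) (l : Fin S.d) (Z : Ω × Ω) :
    ‖wd (S.F (η l)) Z‖ = ‖S.F (η l)‖ * ‖wd Y Z‖ := by
  obtain ⟨t, ht⟩ := rs_root h hY l
  rw [ht, wd_smul_left, norm_mul, norm_smul, hY, mul_one]

end HS

end Pool.Agent.TH951.W.UH
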