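import Pool.Agent.TH951.W.UH.L4

/-!
# Energy estimates
-/

namespace Pool.Agent.TH951.W.UH

open Pool.Agent.TH951.W.UG Finset

variable {Ω : Type*} [NormedField Ω] [IsUltrametricDist Ω]

namespace HS

variable {S : HS Ω} {Y : Ω × Ω} {c : Ω} {η : Fin S.d → Ω × Ω}

lemma wd_ne_of (h : S.IsRS Y c η) {X : Ω × Ω} (hδ : 0 < ‖wd (S.F X) Y‖) (l : Fin S.d) :
    wd X (η l) ≠ 0 := by
  intro h0
  rw [rs_ord h, Finset.prod_eq_zero (Finset.mem_univ l) (by rw [h0, norm_zero]), mul_zero] at hδ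
  exact lt_irrefl _ hδ

lemma sum_log (h : S.IsRS Y c η) {X : Ω × Ω} (hδ : 0 < ‖wd (S.F X) Y‖) :
    ∑ l, (-Real.log ‖wd X (η l)‖) = -Real.log ‖wd (S.F X) Y‖ + Real.log ‖c‖ := by
  have h1 := rs_ord h X
  have h2 : ∏ l, ‖wd X (η l)‖ ≠ 0 := Finset.prod_ne_zero_iff.mpr fun l _ =>
    norm_ne_zero_iff.mpr (wd_ne_of h hδ l)
  rw [h1, Real.log_mul (norm_ne_zero_iff.mpr h.1) h2,
    Real.log_prod (fun l _ => norm_ne_zero_iff.mpr (wd_ne_of h hδ l)), Finset.sum_neg_distrib]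
  ring

lemma log_nonneg (h : S.IsRS Y c η) {X : Ω × Ω} (hX : ‖X‖ = 1) (l : Fin S.d) :
    0 ≤ -Real.log ‖wd X (η l)‖ := by
  have h1 := norm_wd_le X (η l)
  rw [hX, h.2.1 l, one_mul] at h1
  have := Real.log_nonpos (norm_nonneg _) h1
  linarith

lemma sum_kw_le (h : S.IsRS Y c η) {X : Ω × Ω} (hδ : 0 < ‖wd (S.F X) Y‖) (T : ℝ) :
    ∑ l, kw T X (η l) ≤ -Real.log ‖wd (S.F X) Y‖ + Real.log ‖c‖ := by
  rw [← sum_log h hδ]
  exact Finset.sum_le_sum fun l _ => kw_le_log (wd_ne_of h hδ l)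

lemma sum_kw_eq (h : S.IsRS Y c η) {X : Ω × Ω} (hX : ‖X‖ = 1) (hδ : 0 < ‖wd (S.F X) Y‖) (T : ℝ)
    (hT : -Real.log ‖wd (S.F X) Y‖ + Real.log ‖c‖ ≤ T) :
    ∑ l, kw T X (η l) = -Real.log ‖wd (S.F X) Y‖ + Real.log ‖c‖ := by
  rw [← sum_log h hδ]
  apply Finset.sum_congr rfl
  intro l _
  rw [kw_ne (wd_ne_of h hδ l)]
  apply min_eq_left
  refine le_trans ?_ hT
  rw [← sum_log h hδ]
  exact Finset.single_le_sum (f := fun l => -Real.log ‖wd X (η l)‖)
    (fun l _ => log_nonneg h hX l) (Finset.mem_univ l)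

/-- the logarithmic form of the resultant identity -/
lemma sum_log_F (h : S.IsRS Y c η) :
    ∑ l, (-Real.log ‖S.F (η l)‖) = S.Res + S.d * Real.log ‖c‖ := by
  have h1 := congrArg Real.log h.2.2.2
  have h3 : ∀ l, ‖S.F (η l)‖ ≠ 0 := by
    intro l
    apply norm_ne_zero_iff.mpr
    apply S.nz
    intro h0
    have := h.2.1 l
    rw [h0] at this
    simp at this
  rw [Real.log_exp, Real.log_mul (pow_ne_zero _ (norm_ne_zero_iff.mpr h.1))
    (Finset.prod_ne_zero_iff.mpr fun l _ => h3 l), Real.log_pow,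
    Real.log_prod (fun l _ => h3 l)] at h1
  rw [Finset.sum_neg_distrib]
  linarith

lemma F_pos (X : Ω × Ω) (hX : ‖X‖ = 1) : 0 < ‖S.F X‖ := by
  apply norm_pos_iff.mpr
  apply S.nz
  rintro rfl
  simp at hX

/-- blocks of distinct targets -/
lemma block_le (g : ℝ) {Y' : Ω × Ω} {c' : Ω} {η' : Fin S.d → Ω × Ω} (h : S.IsRS Y c η)
    (h' : S.IsRS Y' c' η') (hY : ‖Y‖ = 1) (hYY : ‖wd Y Y'‖ = 1) (hc : ‖c‖ = g) (hc' : ‖c'‖ = g)
    (T : ℝ) : ∑ l, ∑ l', kw T (η l) (η' l') ≤ S.Res + 2 * S.d * Real.log g := by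
  have h1 : ∀ l, ∑ l', kw T (η l) (η' l') ≤ -Real.log ‖S.F (η l)‖ + Real.log g := by
    intro l
    have e1 : ‖wd (S.F (η l)) Y'‖ = ‖S.F (η l)‖ := by
      rw [rs_other h hY, hYY, mul_one]
    have h2 := sum_kw_le h' (X := η l) (by rw [e1]; exact F_pos _ (h.2.1 l)) T
    rwa [e1, hc'] at h2
  refine (Finset.sum_le_sum fun l _ => h1 l).trans (le_of_eq ?_)
  rw [Finset.sum_add_distrib, sum_log_F h, hc, Finset.sum_const, Finset.card_univ,
    Fintype.card_fin, nsmul_eq_mul]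
  ring

end HS

lemma seq_generic (E : Finset ℕ) : ∃ φ : ℕ → ℕ, (∀ m, φ m ∉ E) ∧ ∀ m n, m ≠ n → φ m ≠ φ n := by
  obtain ⟨f, h1, h2⟩ := exists_seq_of_forall_finset_exists (fun i : ℕ => i ∉ E)
    (fun i j => i ≠ j) (by
      intro s _
      obtain ⟨y, hy⟩ := Infinite.exists_notMem_finset (E ∪ s)
      rw [Finset.mem_union, not_or] at hy
      exact ⟨y, hy.1, fun x hx h => hy.2 (h ▸ hx)⟩)
  refine ⟨f, h1, fun m n hmn => ?_⟩
  rcases lt_or_gt_of_ne hmn with h | h
  · exact h2 m n h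
  · exact (h2 n m h).symm

/-- **Energy inequality**. -/
theorem energy {ι : Type*} [Fintype ι] [Nonempty ι] [DecidableEq ι] (B : Fam Ω) (H : HS Ω)
    (p : ι → Ω × Ω) (hp : ∀ i, ‖p i‖ = 1) (hpp : ∀ i j, i ≠ j → wd (p i) (p j) ≠ 0) (T : ℝ)
    (hT0 : 0 ≤ T) (hT : ∀ i, -Real.log ‖H.F (p i)‖ + Real.log H.gs ≤ T) :
    0 ≤ (∑ i, ∑ j, if i = j then 0 else -Real.log ‖wd (p i) (p j)‖) / (Fintype.card ι : ℝ) ^ 2 +
      T / Fintype.card ι + 2 / (Fintype.card ι * H.d) * ∑ i, Real.log ‖H.F (p i)‖ +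
      H.Res / (H.d : ℝ) ^ 2 := by
  classical
  set N : ℝ := (Fintype.card ι : ℝ) with hN
  have hNpos : 0 < N := by rw [hN]; exact_mod_cast Fintype.card_pos
  set D : ℝ := (H.d : ℝ) with hD
  have hDpos : 0 < D := by rw [hD]; exact_mod_cast H.hd
  set Ep := ∑ i, ∑ j, if i = j then 0 else -Real.log ‖wd (p i) (p j)‖ with hEp
  set g := H.gs with hg
  obtain ⟨E1, hE1⟩ := HS.target_generic (S := H) B
  obtain ⟨E2, hE2⟩ : ∃ E2 : Finset ℕ, ∀ m, m ∉ E2 → ∀ i, ‖wd (H.F (p i)) (B.b m)‖ =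
      ‖H.F (p i)‖ := by
    choose t W ht hW hWe htn using fun i => exists_unit (H.F (p i)) (H.nz _ (by
      intro h0
      have := hp i
      rw [h0] at this
      simp at this))
    obtain ⟨E2, hE2⟩ := bad_finite B (Finset.univ.image W) (by
      intro U hU
      rw [Finset.mem_image] at hU
      obtain ⟨i, _, rfl⟩ := hU
      exact hW i)
    refine ⟨E2, fun m hm i => ?_⟩
    rw [hWe i, wd_smul_left, norm_mul, norm_smul, hW i, wd_comm, norm_neg,
      hE2 m hm _ (Finset.mem_image_of_mem _ (Finset.mem_univ i))]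
  obtain ⟨φ, hφ, hφi⟩ := seq_generic (E1 ∪ E2)
  have hφ1 : ∀ m, φ m ∉ E1 := fun m h => hφ m (Finset.mem_union_left _ h)
  have hφ2 : ∀ m, φ m ∉ E2 := fun m h => hφ m (Finset.mem_union_right _ h)
  choose c θ hθ using fun m => H.roots (B.b (φ m)) (B.unit _)
  have hθ' : ∀ m, H.IsRS (B.b (φ m)) (c m) (θ m) := fun m => hθ m
  have hc : ∀ m, ‖c m‖ = g := fun m => hE1 _ (hφ1 m) _ _ (hθ' m)
  have key : ∀ M : ℕ, 0 < M → -(Ep / N ^ 2 + T / N +
      2 / (N * D) * ∑ i, Real.log ‖H.F (p i)‖ + H.Res / D ^ 2) ≤ 0 +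
      (T - (H.Res + 2 * D * Real.log g) / D ^ 2) / M := by
    intro M hM
    have hMpos : (0 : ℝ) < M := by exact_mod_cast hM
    have h1 := kw_psd T hT0 (Sum.elim p (fun q : Fin M × Fin H.d => θ q.1.1 q.2)) (by
      rintro (i | q)
      · exact hp i
      · exact (hθ' _).2.1 _)
      (Sum.elim (fun _ => 1 / N) (fun _ => -(1 / (M * D))))
    simp only [Fintype.sum_sum_type, Sum.elim_inl, Sum.elim_inr] at h1
    -- the cross sums
    have hcross : ∀ i, ∑ q : Fin M × Fin H.d, kw T (p i) (θ q.1.1 q.2) =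
        M * (-Real.log ‖H.F (p i)‖ + Real.log g) := by
      intro i
      rw [Fintype.sum_prod_type]
      have : ∀ m : Fin M, ∑ l, kw T (p i) (θ m.1 l) = -Real.log ‖H.F (p i)‖ + Real.log g := by
        intro m
        have e1 := hE2 _ (hφ2 m.1) i
        have h2 := HS.sum_kw_eq (hθ' m.1) (hp i) (by rw [e1]; exact HS.F_pos _ (hp i)) T (by
          rw [e1, hc]
          exact hT i)
        rw [h2, e1, hc]
      simp_rw [this]
      rw [Finset.sum_const, Finset.card_univ, Fintype.card_fin, nsmul_eq_mul]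
    have hcross' : ∀ i, ∑ q : Fin M × Fin H.d, kw T (θ q.1.1 q.2) (p i) =
        M * (-Real.log ‖H.F (p i)‖ + Real.log g) := by
      intro i
      rw [← hcross i]
      exact Finset.sum_congr rfl fun q _ => kw_symm T _ _
    have hself : ∑ i, ∑ j, kw T (p i) (p j) ≤ Ep + N * T := by
      have : ∀ i j, kw T (p i) (p j) ≤ (if i = j then 0 else -Real.log ‖wd (p i) (p j)‖) +
          if i = j then T else 0 := by
        intro i j
        by_cases hij : i = j
        · simp only [hij, if_true, zero_add]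
          exact kw_le T _ _
        · simp only [hij, if_false, add_zero]
          exact kw_le_log (hpp i j hij)
      refine (Finset.sum_le_sum fun i _ => Finset.sum_le_sum fun j _ => this i j).trans
        (le_of_eq ?_)
      simp only [Finset.sum_add_distrib, Finset.sum_ite_eq, Finset.mem_univ, if_true,
        Finset.sum_const, Finset.card_univ, nsmul_eq_mul]
      rw [← hEp, ← hN]
    have hθθ : ∑ q : Fin M × Fin H.d, ∑ q' : Fin M × Fin H.d,
        kw T (θ q.1.1 q.2) (θ q'.1.1 q'.2) ≤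
        M * (M - 1) * (H.Res + 2 * D * Real.log g) + M * (D ^ 2 * T) := by
      have h2 : ∀ m m' : Fin M, ∑ l, ∑ l', kw T (θ m.1 l) (θ m'.1 l') ≤
          (H.Res + 2 * D * Real.log g) +
          if m = m' then (D ^ 2 * T - (H.Res + 2 * D * Real.log g)) else 0 := by
        intro m m'
        by_cases hmm : m = m'
        · rw [if_pos hmm]
          have : ∑ l, ∑ l', kw T (θ m.1 l) (θ m'.1 l') ≤ D ^ 2 * T := by
            refine (Finset.sum_le_sum fun l _ => Finset.sum_le_sum fun l' _ =>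
              kw_le T _ _).trans (le_of_eq ?_)
            simp only [Finset.sum_const, Finset.card_univ, Fintype.card_fin, nsmul_eq_mul]
            rw [← hD]
            ring
          linarith
        · rw [if_neg hmm, add_zero]
          have hne : φ m.1 ≠ φ m'.1 := hφi _ _ fun h => hmm (Fin.ext h)
          exact HS.block_le g (hθ' m.1) (hθ' m'.1) (B.unit _) (B.sep _ _ hne) (hc _) (hc _) T
      have h3 : ∑ q : Fin M × Fin H.d, ∑ q' : Fin M × Fin H.d,
          kw T (θ q.1.1 q.2) (θ q'.1.1 q'.2) =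
          ∑ m : Fin M, ∑ m' : Fin M, ∑ l, ∑ l', kw T (θ m.1 l) (θ m'.1 l') := by
        rw [Fintype.sum_prod_type]
        apply Finset.sum_congr rfl
        intro m _
        simp_rw [Fintype.sum_prod_type]
        rw [Finset.sum_comm]
      rw [h3]
      refine (Finset.sum_le_sum fun m _ => Finset.sum_le_sum fun m' _ => h2 m m').trans
        (le_of_eq ?_)
      simp only [Finset.sum_add_distrib, Finset.sum_ite_eq, Finset.mem_univ, if_true,
        Finset.sum_const, Finset.card_univ, Fintype.card_fin, nsmul_eq_mul]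
      ring
    -- assemble
    have e1 : ∑ i, (∑ j, 1 / N * (1 / N) * kw T (p i) (p j) +
        ∑ q : Fin M × Fin H.d, 1 / N * -(1 / (M * D)) * kw T (p i) (θ q.1.1 q.2)) +
        ∑ q : Fin M × Fin H.d, (∑ i, -(1 / (M * D)) * (1 / N) * kw T (θ q.1.1 q.2) (p i) +
        ∑ q' : Fin M × Fin H.d, -(1 / (M * D)) * -(1 / (M * D)) *
          kw T (θ q.1.1 q.2) (θ q'.1.1 q'.2)) =
        (1 / N) ^ 2 * ∑ i, ∑ j, kw T (p i) (p j) -
        2 * (1 / N * (1 / (M * D))) * ∑ i, (M * (-Real.log ‖H.F (p i)‖ + Real.log g)) +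
        (1 / (M * D)) ^ 2 * ∑ q : Fin M × Fin H.d, ∑ q' : Fin M × Fin H.d,
          kw T (θ q.1.1 q.2) (θ q'.1.1 q'.2) := by
      have a1 : ∑ q : Fin M × Fin H.d, ∑ i, -(1 / (M * D)) * (1 / N) *
          kw T (θ q.1.1 q.2) (p i) = -(1 / (M * D)) * (1 / N) *
          ∑ i, (M * (-Real.log ‖H.F (p i)‖ + Real.log g)) := by
        rw [Finset.sum_comm, Finset.mul_sum]
        apply Finset.sum_congr rfl
        intro i _
        rw [← Finset.mul_sum, hcross']
      rw [Finset.sum_add_distrib, Finset.sum_add_distrib, a1]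
      simp_rw [← Finset.mul_sum, hcross]
      rw [← Finset.mul_sum]
      ring
    rw [e1] at h1
    have h2 : (1 / N) ^ 2 * ∑ i, ∑ j, kw T (p i) (p j) ≤ (1 / N) ^ 2 * (Ep + N * T) :=
      mul_le_mul_of_nonneg_left hself (sq_nonneg _)
    have h3 := mul_le_mul_of_nonneg_left hθθ (sq_nonneg (1 / ((M : ℝ) * D)))
    have h4 : ∑ i, ((M : ℝ) * (-Real.log ‖H.F (p i)‖ + Real.log g)) =
        M * (-∑ i, Real.log ‖H.F (p i)‖ + N * Real.log g) := by
      rw [← Finset.mul_sum, Finset.sum_add_distrib, Finset.sum_neg_distrib, Finset.sum_const,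
        Finset.card_univ, nsmul_eq_mul]
    rw [h4] at h1
    have h5 : 0 ≤ (1 / N) ^ 2 * (Ep + N * T) -
        2 * (1 / N * (1 / (M * D))) * (M * (-∑ i, Real.log ‖H.F (p i)‖ + N * Real.log g)) +
        (1 / (M * D)) ^ 2 * (M * (M - 1) * (H.Res + 2 * D * Real.log g) + M * (D ^ 2 * T)) := by
      linarith
    have h6 : (1 / N) ^ 2 * (Ep + N * T) -
        2 * (1 / N * (1 / (M * D))) * (M * (-∑ i, Real.log ‖H.F (p i)‖ + N * Real.log g)) +
        (1 / (M * D)) ^ 2 * (M * (M - 1) * (H.Res + 2 * D * Real.log g) + M * (D ^ 2 * T)) =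
        (Ep / N ^ 2 + T / N + 2 / (N * D) * ∑ i, Real.log ‖H.F (p i)‖ + H.Res / D ^ 2) +
        (T - (H.Res + 2 * D * Real.log g) / D ^ 2) / M := by
      field_simp
      ring
    rw [h6] at h5
    linarith
  have := Sys.limit_le key
  linarith

end Pool.Agent.TH951.W.UH
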