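import Pool.Agent.TH951.W.UH.L7

/-!
# Rational coordinates of minimal resultant
-/

namespace Pool.Agent.TH951.W.UH

open Pool.Agent.TH951.W.UG Finset

variable {Ω : Type*} [NormedField Ω] [IsUltrametricDist Ω] {K : Type*} [Field K]

/-- the map on vectors -/
def vm (ι : K →+* Ω) (X : K × K) : Ω × Ω := (ι X.1, ι X.2)

omit [IsUltrametricDist Ω] in
lemma vm_wd (ι : K →+* Ω) (X Y : K × K) : wd (vm ι X) (vm ι Y) = ι (wd X Y) := by
  unfold wd vm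
  simp

omit [IsUltrametricDist Ω] in
lemma vm_smul (ι : K →+* Ω) (t : K) (X : K × K) : vm ι (t • X) = ι t • vm ι X := by
  unfold vm
  ext <;> simp

/-- the linear map over `K` -/
def gmK (U V X : K × K) : K × K := X.1 • U + X.2 • V

/-- its inverse -/
def giK (U V X : K × K) : K × K := ((wd U V)⁻¹ * wd X V, (wd U V)⁻¹ * wd U X)

omit [IsUltrametricDist Ω] in
lemma vm_gm (ι : K →+* Ω) (U V X : K × K) : gm (vm ι U) (vm ι V) (vm ι X) = vm ι (gmK U V X) := by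
  unfold gm gmK vm
  ext <;> simp

omit [IsUltrametricDist Ω] in
lemma vm_gi (ι : K →+* Ω) (U V X : K × K) : gi (vm ι U) (vm ι V) (vm ι X) = vm ι (giK U V X) := by
  unfold gi giK
  rw [vm_wd, vm_wd, vm_wd]
  unfold vm
  ext <;> simp

omit [IsUltrametricDist Ω] in
lemma vm_ne {ι : K →+* Ω} {X : K × K} (hX : X ≠ 0) : vm ι X ≠ 0 := by
  intro h
  apply hX
  unfold vm at h
  have h1 := congrArg Prod.fst h
  have h2 := congrArg Prod.snd h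
  simp only [Prod.fst_zero, Prod.snd_zero, map_eq_zero] at h1 h2
  exact Prod.ext h1 h2

/-- normalising a rational vector -/
lemma exists_unitK (ι : K →+* Ω) (X : K × K) (hX : X ≠ 0) :
    ∃ (t : K) (X' : K × K), t ≠ 0 ∧ ‖vm ι X'‖ = 1 ∧ X = t • X' := by
  obtain ⟨t, ht⟩ : ∃ t : K, ‖ι t‖ = ‖vm ι X‖ := by
    rw [Prod.norm_def]
    rcases le_total ‖(vm ι X).1‖ ‖(vm ι X).2‖ with h | h
    · exact ⟨X.2, (max_eq_right h).symm⟩
    · exact ⟨X.1, (max_eq_left h).symm⟩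
  have hpos : 0 < ‖vm ι X‖ := norm_pos_iff.mpr (vm_ne hX)
  have ht0 : t ≠ 0 := by
    rintro rfl
    rw [map_zero, norm_zero] at ht
    linarith
  refine ⟨t, t⁻¹ • X, ht0, ?_, ?_⟩
  · rw [vm_smul, norm_smul, map_inv₀, norm_inv, ht]
    exact inv_mul_cancel₀ hpos.ne'
  · rw [smul_smul, mul_inv_cancel₀ ht0, one_smul]

/-- `S` is a rational conjugate of `S₀`. -/
def Kr (ι : K →+* Ω) (S₀ S : HS Ω) : Prop :=
  ∃ (U V : K × K) (s : K), wd U V ≠ 0 ∧ s ≠ 0 ∧ S.d = S₀.d ∧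
    (∀ X, S.F X = ι s • gi (vm ι U) (vm ι V) (S₀.F (gm (vm ι U) (vm ι V) X))) ∧
    S.Res = S₀.Res - (S₀.d * ((S₀.d : ℝ) - 1)) * Real.log ‖ι (wd U V)‖ -
      2 * S₀.d * Real.log ‖ι s‖

variable {ι : K →+* Ω} {S₀ S : HS Ω}

omit [IsUltrametricDist Ω] in
lemma gm_gm (U V X X' Z : Ω × Ω) : gm U V (gm X X' Z) = gm (gm U V X) (gm U V X') Z := by
  unfold gm
  ext
  · simp only [Prod.fst_add, Prod.smul_fst, Prod.snd_add, Prod.smul_snd, smul_eq_mul]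
    ring
  · simp only [Prod.fst_add, Prod.smul_fst, Prod.snd_add, Prod.smul_snd, smul_eq_mul]
    ring

omit [IsUltrametricDist Ω] in
lemma gi_gi {U V X X' : Ω × Ω} (h : wd U V ≠ 0) (h' : wd X X' ≠ 0) (W : Ω × Ω) :
    gi X X' (gi U V W) = gi (gm U V X) (gm U V X') W := by
  have h2 : wd (gm U V X) (gm U V X') ≠ 0 := by
    rw [wd_gm]
    exact mul_ne_zero h h'
  conv_rhs => rw [← gm_gi h W, ← gm_gi h' (gi U V W), gm_gm, gi_gm h2]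

omit [IsUltrametricDist Ω] in
lemma Kr_conj (hK : Kr ι S₀ S) {X X' : K × K} (hw : wd (vm ι X) (vm ι X') ≠ 0) (s₂ : K)
    (hs₂ : ι s₂ ≠ 0) : Kr ι S₀ (S.conj (vm ι X) (vm ι X') hw (ι s₂) hs₂) := by
  obtain ⟨U, V, s, hUV, hs, hd, hF, hR⟩ := hK
  have hUV' : wd (vm ι U) (vm ι V) ≠ 0 := by
    rw [vm_wd]
    exact (map_ne_zero ι).mpr hUV
  have hs₂' : s₂ ≠ 0 := fun h => hs₂ (by rw [h, map_zero])
  have hwK : wd X X' ≠ 0 := fun h => hw (by rw [vm_wd, h, map_zero])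
  have hwd : wd (gmK U V X) (gmK U V X') = wd U V * wd X X' := by
    unfold gmK wd
    simp only [Prod.fst_add, Prod.snd_add, Prod.smul_fst, Prod.smul_snd, smul_eq_mul]
    ring
  refine ⟨gmK U V X, gmK U V X', s * s₂, ?_, mul_ne_zero hs hs₂', hd, ?_, ?_⟩
  · rw [hwd]
    exact mul_ne_zero hUV hwK
  · intro Z
    show ι s₂ • gi (vm ι X) (vm ι X') (S.F (gm (vm ι X) (vm ι X') Z)) = _
    rw [hF, gi_smul, gi_gi hUV' hw, gm_gm, smul_smul, vm_gm, vm_gm, map_mul, mul_comm (ι s₂)]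
  · show S.Res - (S.d * ((S.d : ℝ) - 1)) * Real.log ‖wd (vm ι X) (vm ι X')‖ -
      2 * S.d * Real.log ‖ι s₂‖ = _
    rw [hR, hd, hwd, map_mul, map_mul, norm_mul, norm_mul, vm_wd,
      Real.log_mul (norm_ne_zero_iff.mpr ((map_ne_zero ι).mpr hUV))
        (norm_ne_zero_iff.mpr ((map_ne_zero ι).mpr hwK)),
      Real.log_mul (norm_ne_zero_iff.mpr ((map_ne_zero ι).mpr hs))
        (norm_ne_zero_iff.mpr hs₂)]
    ring

omit [IsUltrametricDist Ω] in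
lemma Kr_rat (hrat : ∀ X : K × K, ∃ Y : K × K, S₀.F (vm ι X) = vm ι Y) (hK : Kr ι S₀ S)
    (X : K × K) : ∃ Y : K × K, S.F (vm ι X) = vm ι Y := by
  obtain ⟨U, V, s, hUV, hs, hd, hF, hR⟩ := hK
  obtain ⟨Y, hY⟩ := hrat (gmK U V X)
  exact ⟨s • giK U V Y, by rw [hF, vm_gm, hY, vm_gi, vm_smul]⟩

/-- the family of rational vectors -/
lemma exists_famK (ι : K →+* Ω) {c : ℕ → K}
    (hnat : (∀ i, ‖ι (c i)‖ ≤ 1) ∧ ∀ i j, i ≠ j → ‖ι (c i) - ι (c j)‖ = 1) :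
    ∃ B : Fam Ω, ∀ i, B.b i = vm ι (c i, 1) := by
  refine ⟨⟨fun i => (ι (c i), 1), fun i => norm_pair_one (hnat.1 i), fun i j hij => ?_⟩,
    fun i => ?_⟩
  · unfold wd
    simp only [mul_one, one_mul]
    exact hnat.2 i j hij
  · unfold vm
    simp

lemma exists_scale {c : ℕ → K}
    (hnat : (∀ i, ‖ι (c i)‖ ≤ 1) ∧ ∀ i j, i ≠ j → ‖ι (c i) - ι (c j)‖ = 1)
    (hrat : ∀ X : K × K, ∃ Y : K × K, S₀.F (vm ι X) = vm ι Y) (hK : Kr ι S₀ S) {X X' : K × K}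
    (hw : wd (vm ι X) (vm ι X') ≠ 0) :
    ∃ (s₂ : K) (hs₂ : ι s₂ ≠ 0), (S.conj (vm ι X) (vm ι X') hw (ι s₂) hs₂).gs = 1 := by
  obtain ⟨B, hB⟩ := exists_famK ι hnat
  have h1 : ι (1 : K) ≠ 0 := by rw [map_one]; exact one_ne_zero
  have hK1 := Kr_conj hK hw 1 h1
  obtain ⟨E1, hE1⟩ := HS.gs_attained (S := S.conj (vm ι X) (vm ι X') hw (ι 1) h1) B
  obtain ⟨i, hi⟩ := Infinite.exists_notMem_finset E1
  obtain ⟨Y, hY⟩ := Kr_rat hrat hK1 (c i, 1)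
  have hne : Y ≠ 0 := by
    rintro rfl
    have h2 := HS.F_pos (S := S.conj (vm ι X) (vm ι X') hw (ι 1) h1) _ (B.unit i)
    rw [hB i, hY] at h2
    unfold vm at h2
    simp at h2
  obtain ⟨t, Y', ht, hY', hYe⟩ := exists_unitK ι Y hne
  have hs₂ : ι (t⁻¹) ≠ 0 := (map_ne_zero ι).mpr (inv_ne_zero ht)
  refine ⟨t⁻¹, hs₂, ?_⟩
  obtain ⟨E2, hE2⟩ := HS.gs_attained (S := S.conj (vm ι X) (vm ι X') hw (ι t⁻¹) hs₂) B
  obtain ⟨j, hj⟩ := Infinite.exists_notMem_finset (E1 ∪ E2)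
  rw [Finset.mem_union, not_or] at hj
  rw [← hE2 j hj.2]
  have e1 : (S.conj (vm ι X) (vm ι X') hw (ι t⁻¹) hs₂).F (B.b j) =
      ι t⁻¹ • (S.conj (vm ι X) (vm ι X') hw (ι 1) h1).F (B.b j) := by
    show ι t⁻¹ • gi _ _ _ = ι t⁻¹ • (ι 1 • gi _ _ _)
    rw [map_one, one_smul]
  rw [e1, norm_smul, hE1 j hj.1, ← hE1 i hi, hB i, hY, hYe, vm_smul, norm_smul, hY', mul_one,
    ← norm_mul, ← map_mul, inv_mul_cancel₀ ht, map_one, norm_one]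

/-- **Minimal rational coordinates.** -/
theorem exists_minimal {c : ℕ → K}
    (hnat : (∀ i, ‖ι (c i)‖ ≤ 1) ∧ ∀ i j, i ≠ j → ‖ι (c i) - ι (c j)‖ = 1)
    (hrat : ∀ X : K × K, ∃ Y : K × K, S₀.F (vm ι X) = vm ι Y)
    (hint : ∀ S, Kr ι S₀ S → ∃ m : ℤ, S.Res = m) :
    ∃ (S : HS Ω) (R : ℕ), Kr ι S₀ S ∧ S.gs = 1 ∧ S.Res = R ∧
      ∀ S', Kr ι S₀ S' → S'.gs = 1 → S.Res ≤ S'.Res := by
  classical
  obtain ⟨B, hB⟩ := exists_famK ι hnat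
  have hnn : ∀ S, Kr ι S₀ S → S.gs = 1 → ∃ m : ℕ, S.Res = m := by
    intro S hK hg
    obtain ⟨m, hm⟩ := hint S hK
    have h0 := HS.Res_nonneg B hg.le
    rw [hm] at h0
    have h1 : 0 ≤ m := by exact_mod_cast h0
    refine ⟨m.toNat, ?_⟩
    rw [hm]
    have := Int.toNat_of_nonneg h1
    exact_mod_cast this.symm
  have hex : ∃ m : ℕ, ∃ S, Kr ι S₀ S ∧ S.gs = 1 ∧ S.Res = m := by
    have hw : wd ((1, 0) : K × K) (0, 1) = 1 := by unfold wd; simp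
    have hw' : wd (vm ι (1, 0)) (vm ι (0, 1)) ≠ 0 := by
      rw [vm_wd, hw, map_one]
      exact one_ne_zero
    have hK₀ : Kr ι S₀ S₀ := by
      refine ⟨(1, 0), (0, 1), 1, by rw [hw]; exact one_ne_zero, one_ne_zero, rfl, ?_, ?_⟩
      · intro X
        have e1 : ∀ Z : Ω × Ω, gm (vm ι (1, 0)) (vm ι (0, 1)) Z = Z := by
          intro Z
          unfold gm vm
          ext <;> simp
        have e2 : ∀ Z : Ω × Ω, gi (vm ι (1, 0)) (vm ι (0, 1)) Z = Z := by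
          intro Z
          have := gi_gm hw' Z
          rwa [e1] at this
        rw [e1, e2, map_one, one_smul]
      · rw [hw, map_one, norm_one, Real.log_one]
        ring
    obtain ⟨s₂, hs₂, hg⟩ := exists_scale hnat hrat hK₀ hw'
    have hK₁ := Kr_conj hK₀ hw' s₂ hs₂
    obtain ⟨m, hm⟩ := hnn _ hK₁ hg
    exact ⟨m, _, hK₁, hg, hm⟩
  obtain ⟨S, hK, hg, hR⟩ := Nat.find_spec hex
  refine ⟨S, Nat.find hex, hK, hg, hR, ?_⟩
  intro S' hK' hg'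
  obtain ⟨m, hm⟩ := hnn S' hK' hg'
  rw [hR, hm]
  exact_mod_cast Nat.find_min' hex ⟨S', hK', hg', hm⟩

end Pool.Agent.TH951.W.UH
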